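import Pool.Agent.Q49.SG.Main
import Pool.Agent.Q49.SB.Gen

/-!
# A rational quintic curve in projective 3-space with two non-real points glued
-/

set_option autoImplicit false

namespace Q49.SG

open Polynomial Q49.SB

/-- the quartic `c` -/
noncomputable def qc : ℝ[X] := (X ^ 2 + 81) * (X ^ 2 + 100)

/-- the parametrisation of the curve -/
noncomputable def phi : Fin (3 + 1) → ℝ[X] := ![2 * X ^ 2 + 181, X ^ 3 + 91 * X, qc, X * qc]

theorem phi0 : phi 0 = 2 * X ^ 2 + 181 := rfl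
theorem phi1 : phi 1 = X ^ 3 + 91 * X := rfl
theorem phi2 : phi 2 = qc := rfl
theorem phi3 : phi 3 = X * qc := rfl

/-- restrictions to the curve of the forms of degree `k` -/
noncomputable def W (k : ℕ) : Submodule ℝ ℝ[X] :=
  (MvPolynomial.homogeneousSubmodule (Fin (3 + 1)) ℝ k).map (MvPolynomial.aeval phi).toLinearMap

theorem mem_W {k : ℕ} {g : ℝ[X]} :
    g ∈ W k ↔ ∃ G : Poly 3, G.IsHomogeneous k ∧ MvPolynomial.aeval phi G = g := Iff.rfl

theorem W_mul {j k : ℕ} {f g : ℝ[X]} (hf : f ∈ W j) (hg : g ∈ W k) : f * g ∈ W (j + k) := by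
  rw [mem_W] at *
  obtain ⟨F, hF, rfl⟩ := hf
  obtain ⟨G, hG, rfl⟩ := hg
  exact ⟨F * G, hF.mul hG, map_mul _ _ _⟩

theorem phi_mem (i : Fin (3 + 1)) : phi i ∈ W 1 :=
  mem_W.2 ⟨MvPolynomial.X i, MvPolynomial.isHomogeneous_X _ _, MvPolynomial.aeval_X _ _⟩

theorem W2 (i j : Fin (3 + 1)) : phi i * phi j ∈ W 2 := W_mul (phi_mem i) (phi_mem j)

theorem c_mem : qc ∈ W 2 := by
  have h : qc = phi 0 * phi 2 - (1 / 45 : ℝ) • (phi 2 * phi 2 - phi 3 * phi 1) := by
    have h1 : phi 2 * phi 2 - phi 3 * phi 1 = (45 : ℝ) • (phi 0 * phi 2 - qc) := by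
      rw [smul_eq_C_mul, show (C 45 : ℝ[X]) = 45 from map_ofNat C 45, phi0, phi1, phi2, phi3, qc]
      ring
    rw [h1, smul_smul]
    norm_num
  rw [h]
  exact sub_mem (W2 0 2) (Submodule.smul_mem _ _ (sub_mem (W2 2 2) (W2 3 1)))

theorem two_smul' {f : ℝ[X]} {k : ℕ} (h : 2 * f ∈ W k) : f ∈ W k := by
  have h1 : f = (1 / 2 : ℝ) • (2 * f) := by
    rw [smul_eq_C_mul, ← mul_assoc, show (2 : ℝ[X]) = C 2 from (map_ofNat C 2).symm, ← C_mul]
    norm_num
  rw [h1]
  exact Submodule.smul_mem _ _ h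

theorem nat_smul' {f : ℝ[X]} {k : ℕ} (n : ℕ) (h : f ∈ W k) : (n : ℝ[X]) * f ∈ W k := by
  have h1 : (n : ℝ[X]) * f = (n : ℝ) • f := by
    rw [smul_eq_C_mul, map_natCast]
  rw [h1]
  exact Submodule.smul_mem _ _ h

theorem one_mem : (1 : ℝ[X]) ∈ W 2 := by
  have h : (1 : ℝ[X]) = (1 / 361 : ℝ) • (phi 0 * phi 0 - ((4 : ℕ) : ℝ[X]) * qc) := by
    have h1 : phi 0 * phi 0 - ((4 : ℕ) : ℝ[X]) * qc = (361 : ℝ) • 1 := by
      rw [smul_eq_C_mul, show (C 361 : ℝ[X]) = 361 from map_ofNat C 361, phi0, qc]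
      push_cast
      ring
    rw [h1, smul_smul]
    norm_num
  rw [h]
  exact Submodule.smul_mem _ _ (sub_mem (W2 0 0) (nat_smul' 4 c_mem))

theorem cX1 : qc * X ^ 1 ∈ W 2 := by
  have h : qc * X ^ 1 = ((2 : ℕ) : ℝ[X]) * (phi 1 * phi 2) - phi 0 * phi 3 := by
    rw [phi0, phi1, phi2, phi3, qc]
    push_cast
    ring
  rw [h]
  exact sub_mem (nat_smul' 2 (W2 1 2)) (W2 0 3)

theorem cX2 : qc * X ^ 2 ∈ W 2 := by
  refine two_smul' ?_
  have h : 2 * (qc * X ^ 2) = phi 0 * phi 2 - ((181 : ℕ) : ℝ[X]) * qc := by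
    rw [phi0, phi2, qc]
    push_cast
    ring
  rw [h]
  exact sub_mem (W2 0 2) (nat_smul' 181 c_mem)

theorem cX3 : qc * X ^ 3 ∈ W 2 := by
  have h : qc * X ^ 3 = phi 1 * phi 2 - ((91 : ℕ) : ℝ[X]) * (qc * X ^ 1) := by
    rw [phi1, phi2, qc]
    push_cast
    ring
  rw [h]
  exact sub_mem (W2 1 2) (nat_smul' 91 cX1)

theorem cX4 : qc * X ^ 4 ∈ W 2 := by
  have h : qc * X ^ 4 = phi 2 * phi 2 - ((181 : ℕ) : ℝ[X]) * (qc * X ^ 2) - ((8100 : ℕ) : ℝ[X]) * qc := by
    rw [phi2, qc]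
    push_cast
    ring
  rw [h]
  exact sub_mem (sub_mem (W2 2 2) (nat_smul' 181 cX2)) (nat_smul' 8100 c_mem)

theorem cX5 : qc * X ^ 5 ∈ W 2 := by
  have h : qc * X ^ 5 = phi 3 * phi 2 - ((181 : ℕ) : ℝ[X]) * (qc * X ^ 3) - ((8100 : ℕ) : ℝ[X]) * (qc * X ^ 1) := by
    rw [phi2, phi3, qc]
    push_cast
    ring
  rw [h]
  exact sub_mem (sub_mem (W2 3 2) (nat_smul' 181 cX3)) (nat_smul' 8100 cX1)

theorem cX6 : qc * X ^ 6 ∈ W 2 := by
  have h : qc * X ^ 6 = phi 3 * phi 3 - ((181 : ℕ) : ℝ[X]) * (qc * X ^ 4) - ((8100 : ℕ) : ℝ[X]) * (qc * X ^ 2) := by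
    rw [phi3, qc]
    push_cast
    ring
  rw [h]
  exact sub_mem (sub_mem (W2 3 3) (nat_smul' 181 cX4)) (nat_smul' 8100 cX2)

theorem cXj {j : ℕ} (hj : j ≤ 6) : qc * X ^ j ∈ W 2 := by
  interval_cases j
  · rw [pow_zero, mul_one]; exact c_mem
  · exact cX1
  · exact cX2
  · exact cX3
  · exact cX4
  · exact cX5
  · exact cX6

theorem qc_monic : qc.Monic := by
  rw [qc]
  refine Monic.mul ?_ ?_
  · have : (X ^ 2 + 81 : ℝ[X]) = X ^ 2 + C 81 := by rw [show (C 81 : ℝ[X]) = 81 from map_ofNat C 81]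
    rw [this]; exact monic_X_pow_add_C _ two_ne_zero
  · have : (X ^ 2 + 100 : ℝ[X]) = X ^ 2 + C 100 := by
      rw [show (C 100 : ℝ[X]) = 100 from map_ofNat C 100]
    rw [this]; exact monic_X_pow_add_C _ two_ne_zero

theorem qc_natDegree : qc.natDegree = 4 := by
  rw [qc]
  compute_degree!

theorem qc_expand : qc = X ^ 4 + 181 * X ^ 2 + 8100 := by rw [qc]; ring

/-- the point `9 i` -/
noncomputable def pa : ℂ := 9 * Complex.I

/-- the point `10 i` -/
noncomputable def pb : ℂ := 10 * Complex.I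

theorem pa2 : pa ^ 2 = -81 := by rw [pa, mul_pow, Complex.I_sq]; norm_num
theorem pb2 : pb ^ 2 = -100 := by rw [pb, mul_pow, Complex.I_sq]; norm_num

theorem qc_pa : aeval pa qc = 0 := by
  rw [qc, map_mul, map_add, map_pow, aeval_X, pa2, map_ofNat]
  norm_num

theorem qc_pb : aeval pb qc = 0 := by
  rw [qc, map_mul, map_add, map_add, map_pow, aeval_X, pb2, map_ofNat, map_ofNat]
  norm_num

theorem small_mem {r : ℝ[X]} (hr : r.natDegree < 4) (h : aeval pa r = aeval pb r) : r ∈ W 2 := by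
  have h0 := r.as_sum_range' 4 hr
  simp only [Finset.sum_range_succ, Finset.sum_range_zero, zero_add, ← C_mul_X_pow_eq_monomial,
    pow_zero, mul_one, pow_one] at h0
  set r0 := r.coeff 0
  set r1 := r.coeff 1
  set r2 := r.coeff 2
  set r3 := r.coeff 3
  have ha : aeval pa r = (((r0 - 81 * r2 : ℝ)) : ℂ) + ((9 * r1 - 729 * r3 : ℝ) : ℂ) * Complex.I := by
    rw [h0]
    simp only [map_add, map_mul, aeval_C, aeval_X, map_pow, Complex.coe_algebraMap]
    have e3 : pa ^ 3 = - 729 * Complex.I := by rw [pow_succ, pa2, pa]; ring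
    rw [pa2, e3, pa]
    push_cast
    ring
  have hb : aeval pb r =
      (((r0 - 100 * r2 : ℝ)) : ℂ) + ((10 * r1 - 1000 * r3 : ℝ) : ℂ) * Complex.I := by
    rw [h0]
    simp only [map_add, map_mul, aeval_C, aeval_X, map_pow, Complex.coe_algebraMap]
    have e3 : pb ^ 3 = - 1000 * Complex.I := by rw [pow_succ, pb2, pb]; ring
    rw [pb2, e3, pb]
    push_cast
    ring
  rw [ha, hb] at h
  have hre := congrArg Complex.re h
  have him := congrArg Complex.im h
  simp only [Complex.add_re, Complex.add_im, Complex.mul_re, Complex.mul_im, Complex.ofReal_re,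
    Complex.ofReal_im, Complex.I_re, Complex.I_im, mul_zero, mul_one, sub_zero, add_zero,
    zero_add] at hre him
  have hr2 : r2 = 0 := by linarith
  have hr1 : r1 = 271 * r3 := by linarith
  have h1 : r = r0 • (1 : ℝ[X]) + r3 • (phi 0 * phi 1 - ((2 : ℕ) : ℝ[X]) * (qc * X ^ 1)) := by
    rw [h0, hr2, hr1, smul_eq_C_mul, smul_eq_C_mul, phi0, phi1, qc, C_mul,
      show (C 271 : ℝ[X]) = 271 from map_ofNat C 271, C_0]
    push_cast
    ring
  rw [h1]
  exact add_mem (Submodule.smul_mem _ _ one_mem) (Submodule.smul_mem _ _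
    (sub_mem (W2 0 1) (nat_smul' 2 cX1)))

theorem base {g : ℝ[X]} (hg : g.natDegree ≤ 10) (h : aeval pa g = aeval pb g) : g ∈ W 2 := by
  have h0 : g %ₘ qc + qc * (g /ₘ qc) = g := modByMonic_add_div g qc
  rw [← h0]
  refine add_mem (small_mem ?_ ?_) ?_
  · rw [← qc_natDegree]
    refine natDegree_modByMonic_lt g qc_monic fun h1 => ?_
    have := qc_natDegree
    rw [h1, natDegree_one] at this
    omega
  · have ha := congrArg (aeval pa) h0
    have hb := congrArg (aeval pb) h0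
    rw [map_add, map_mul, qc_pa, zero_mul, add_zero] at ha
    rw [map_add, map_mul, qc_pb, zero_mul, add_zero] at hb
    rw [ha, hb, h]
  · have hq : (g /ₘ qc).natDegree < 7 := by
      rw [natDegree_divByMonic g qc_monic, qc_natDegree]
      omega
    rw [(g /ₘ qc).as_sum_range' 7 hq, Finset.mul_sum]
    refine sum_mem fun j hj => ?_
    rw [Finset.mem_range] at hj
    rw [← C_mul_X_pow_eq_monomial, mul_left_comm, ← smul_eq_C_mul]
    exact Submodule.smul_mem _ _ (cXj (by omega))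

theorem pow_one_mem (k : ℕ) : (1 : ℝ[X]) ∈ W (2 * k) := by
  induction k with
  | zero => exact mem_W.2 ⟨1, MvPolynomial.isHomogeneous_one _ _, map_one _⟩
  | succ k ih =>
    have := W_mul ih one_mem
    rwa [mul_one] at this

/-- All polynomials of degree at most `10 k` which take the same value at `9 i` and `10 i` are
restrictions of forms of degree `2 k`. -/
theorem gen (k : ℕ) : ∀ g : ℝ[X], g.natDegree ≤ 10 * (k + 1) → aeval pa g = aeval pb g →
    g ∈ W (2 * (k + 1)) := by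
  induction k with
  | zero => exact fun g hg h => base hg h
  | succ k ih =>
    intro g hg h
    have hm : (qc * qc).Monic := qc_monic.mul qc_monic
    have hd : (qc * qc).natDegree = 8 := by
      rw [qc_monic.natDegree_mul qc_monic, qc_natDegree]
    have h0 : g %ₘ (qc * qc) + (qc * qc) * (g /ₘ (qc * qc)) = g := modByMonic_add_div g (qc * qc)
    have hlow : ∀ j, j ≤ 10 * k + 6 → qc * X ^ j ∈ W (2 * (k + 1)) := by
      intro j hj
      refine ih _ ?_ ?_
      · refine natDegree_mul_le.trans ?_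
        rw [qc_natDegree, natDegree_X_pow]
        omega
      · rw [map_mul, map_mul, qc_pa, qc_pb, zero_mul, zero_mul]
    rw [← h0]
    refine add_mem ?_ ?_
    · have h1 : g %ₘ (qc * qc) ∈ W 2 := by
        refine base ?_ ?_
        · have : (g %ₘ (qc * qc)).natDegree < (qc * qc).natDegree := by
            refine natDegree_modByMonic_lt g hm fun h1 => ?_
            rw [h1, natDegree_one] at hd
            omega
          omega
        · have ha := congrArg (aeval pa) h0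
          have hb := congrArg (aeval pb) h0
          rw [map_add, map_mul, map_mul, qc_pa, zero_mul, zero_mul, add_zero] at ha
          rw [map_add, map_mul, map_mul, qc_pb, zero_mul, zero_mul, add_zero] at hb
          rw [ha, hb, h]
      have h2 := W_mul h1 (pow_one_mem (k + 1))
      rw [mul_one, show 2 + 2 * (k + 1) = 2 * (k + 1 + 1) by ring] at h2
      exact h2
    · have hq : (g /ₘ (qc * qc)).natDegree < 10 * k + 13 := by
        rw [natDegree_divByMonic g hm, hd]
        omega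
      rw [(g /ₘ (qc * qc)).as_sum_range' _ hq, Finset.mul_sum]
      refine sum_mem fun j hj => ?_
      rw [Finset.mem_range] at hj
      rw [← C_mul_X_pow_eq_monomial, mul_left_comm, ← smul_eq_C_mul]
      refine Submodule.smul_mem _ _ ?_
      rw [show 2 * (k + 1 + 1) = 2 + 2 * (k + 1) by ring]
      by_cases hj6 : j ≤ 10 * k + 6
      · rw [mul_assoc]
        exact W_mul c_mem (hlow j hj6)
      · have h3 : qc * qc * X ^ j = (qc * X ^ 6) * (qc * X ^ (j - 6)) := by
          have : j = 6 + (j - 6) := by omega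
          conv_lhs => rw [this, pow_add]
          ring
        rw [h3]
        exact W_mul (cXj le_rfl) (hlow _ (by omega))

end Q49.SG
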