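import Pool.Agent.Q49.SG.Curve

/-!
# The quintic curve has a stubborn form of degree 2 and no stubborn form of degree 4
-/

set_option autoImplicit false

namespace Q49.SG

open Polynomial Q49.SB

theorem prod_small (s : Multiset ℝ) :
    ‖(s.map fun r : ℝ => (pa - (r : ℂ)) / (pb - (r : ℂ))).prod - 1‖ ≤
      (11 / 10 : ℝ) ^ (Multiset.card s) - 1 := by
  induction s using Multiset.induction_on with
  | empty => simp
  | cons r s ih =>
    rw [Multiset.map_cons, Multiset.prod_cons, Multiset.card_cons]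
    set P := (s.map fun r : ℝ => (pa - (r : ℂ)) / (pb - (r : ℂ))).prod
    have him : (10 : ℝ) ≤ ‖pb - (r : ℂ)‖ := by
      have h1 := Complex.abs_im_le_norm (pb - (r : ℂ))
      have h2 : (pb - (r : ℂ)).im = 10 := by simp [pb]
      rw [h2] at h1
      refine le_trans ?_ h1
      norm_num
    have hne : pb - (r : ℂ) ≠ 0 := by
      intro h0
      rw [h0, norm_zero] at him
      norm_num at him
    have hw : ‖(pa - (r : ℂ)) / (pb - (r : ℂ)) - 1‖ ≤ 1 / 10 := by
      rw [div_sub_one hne, norm_div]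
      have h1 : pa - (r : ℂ) - (pb - (r : ℂ)) = -Complex.I := by rw [pa, pb]; ring
      rw [h1, norm_neg, Complex.norm_I]
      exact one_div_le_one_div_of_le (by norm_num) him
    have e1 : (pa - (r : ℂ)) / (pb - (r : ℂ)) * P - 1 =
        ((pa - (r : ℂ)) / (pb - (r : ℂ)) - 1) * (1 + (P - 1)) + (P - 1) := by ring
    rw [e1]
    calc _ ≤ ‖((pa - (r : ℂ)) / (pb - (r : ℂ)) - 1) * (1 + (P - 1))‖ + ‖P - 1‖ := norm_add_le _ _
      _ ≤ 1 / 10 * (1 + ‖P - 1‖) + ‖P - 1‖ := by
        rw [norm_mul]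
        refine add_le_add_left (mul_le_mul hw ?_ (norm_nonneg _) (by norm_num)) _
        calc _ ≤ ‖(1 : ℂ)‖ + ‖P - 1‖ := norm_add_le _ _
          _ = _ := by rw [norm_one]
      _ ≤ _ := by rw [pow_succ]; linarith

theorem im_pa : pa.im = 9 := by simp [pa]
theorem im_pb : pb.im = 10 := by simp [pb]

theorem pa_ne_pb : pa ≠ pb := by
  intro h
  have := congrArg Complex.im h
  rw [im_pa, im_pb] at this
  norm_num at this

theorem aeval_roots (s : Multiset ℝ) (z : ℂ) :
    aeval z (s.map fun r => (X - C r : ℝ[X])).prod = (s.map fun r : ℝ => z - (r : ℂ)).prod := by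
  rw [map_multiset_prod, Multiset.map_map]
  congr 1
  refine Multiset.map_congr rfl fun r _ => ?_
  simp

theorem aeval_roots_ne (s : Multiset ℝ) {z : ℂ} (hz : z.im ≠ 0) :
    aeval z (s.map fun r => (X - C r : ℝ[X])).prod ≠ 0 := by
  rw [aeval_roots]
  refine Multiset.prod_ne_zero fun h => ?_
  obtain ⟨r, -, hr⟩ := Multiset.mem_map.1 h
  have := congrArg Complex.im hr
  rw [Complex.sub_im, Complex.ofReal_im, sub_zero, Complex.zero_im] at this
  exact hz this

theorem poly {p : ℝ[X]} (hp : ∀ x, 0 ≤ p.eval x) (hd : p.natDegree ≤ 20)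
    (h : aeval pa p = aeval pb p) :
    ∃ k : ℕ, Odd k ∧ ∃ q : Fin 3 → ℝ[X], p ^ k = ∑ i, q i ^ 2 ∧
      ∀ i, aeval pa (q i) = aeval pb (q i) := by
  by_cases hp0 : p = 0
  · refine ⟨1, odd_one, fun _ => 0, ?_, fun _ => ?_⟩
    · rw [hp0]; simp
    · rw [map_zero, map_zero]
  obtain ⟨s, h1, hs, hpos, hcard⟩ := split_roots _ p le_rfl hp0 hp
  have hga := aeval_roots_ne s (z := pa) (by rw [im_pa]; norm_num)
  have hgb := aeval_roots_ne s (z := pb) (by rw [im_pb]; norm_num)
  set g := (s.map fun r => (X - C r : ℝ[X])).prod with hg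
  have hpa : aeval pa p = (aeval pa g) ^ 2 * aeval pa h1 := by rw [hs, map_mul, map_pow]
  have hpb : aeval pb p = (aeval pb g) ^ 2 * aeval pb h1 := by rw [hs, map_mul, map_pow]
  rw [hpa, hpb] at h
  rcases Nat.eq_zero_or_pos h1.natDegree with hz | hz
  · obtain ⟨c, rfl⟩ : ∃ c, h1 = C c := ⟨_, eq_C_of_natDegree_eq_zero hz⟩
    have hc : 0 < c := by have := hpos 0; rwa [eval_C] at this
    rw [aeval_C, aeval_C] at h
    have hc' : (algebraMap ℝ ℂ c) ≠ 0 := by
      rw [Complex.coe_algebraMap]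
      exact_mod_cast hc.ne'
    have h2 := mul_right_cancel₀ hc' h
    have h3 : aeval pa g = aeval pb g := by
      rcases sq_eq_sq_iff_eq_or_eq_neg.1 h2 with h3 | h3
      · exact h3
      · exfalso
        have h4 : (s.map fun r : ℝ => (pa - (r : ℂ)) / (pb - (r : ℂ))).prod = -1 := by
          rw [Multiset.prod_map_div, ← aeval_roots, ← aeval_roots, ← hg, h3, neg_div,
            div_self hgb]
        have h5 := prod_small s
        rw [h4] at h5
        have h6 : ‖(-1 - 1 : ℂ)‖ = 2 := by norm_num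
        rw [h6] at h5
        have h7 : (11 / 10 : ℝ) ^ (Multiset.card s) ≤ (11 / 10 : ℝ) ^ 10 :=
          pow_le_pow_right₀ (by norm_num) (by omega)
        norm_num at h7
        linarith
    refine ⟨1, odd_one, ![C (Real.sqrt c) * g, 0, 0], ?_, ?_⟩
    · rw [Fin.sum_univ_three]
      simp only [Matrix.cons_val_zero, Matrix.cons_val_one, Matrix.cons_val]
      rw [mul_pow, ← C_pow, Real.sq_sqrt hc.le, pow_one, hs]
      ring
    · intro i
      fin_cases i
      · simp [h3]
      · simp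
      · simp
  · by_cases hza : aeval pa h1 = 0
    · have hzb : aeval pb h1 = 0 := by
        rw [hza, mul_zero] at h
        exact (mul_eq_zero.1 h.symm).resolve_left (pow_ne_zero 2 hgb)
      obtain ⟨u, v, huv⟩ := two_squares _ h1 le_rfl fun x => (hpos x).le
      refine ⟨3, ⟨1, rfl⟩, ![g ^ 3 * h1 * u, g ^ 3 * h1 * v, 0], ?_, ?_⟩
      · rw [Fin.sum_univ_three]
        simp only [Matrix.cons_val_zero, Matrix.cons_val_one, Matrix.cons_val]
        have h3 : h1 ^ 3 = h1 ^ 2 * (u ^ 2 + v ^ 2) := by rw [← huv]; ring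
        rw [hs, mul_pow, h3]
        ring
      · intro i
        fin_cases i
        · simp [hza, hzb]
        · simp [hza, hzb]
        · simp
    · have hzb : aeval pb h1 ≠ 0 := by
        intro h0
        rw [h0, mul_zero] at h
        exact hza ((mul_eq_zero.1 h).resolve_left (pow_ne_zero 2 hga))
      obtain ⟨t, ht⟩ := IsAlgClosed.exists_pow_nat_eq (aeval pb h1) (n := 2) two_pos
      have ht0 : t ≠ 0 := by
        rintro rfl
        rw [zero_pow two_ne_zero] at ht
        exact hzb ht.symm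
      have hs0 : aeval pb g / aeval pa g * t ≠ 0 := mul_ne_zero (div_ne_zero hgb hga) ht0
      have hs2 : (aeval pb g / aeval pa g * t) ^ 2 = aeval pa h1 := by
        rw [mul_pow, div_pow, ht, div_mul_eq_mul_div, ← h, mul_div_assoc, mul_comm,
          div_mul_cancel₀ _ (pow_ne_zero 2 hga)]
      obtain ⟨m, hm, K0, K1, K2, hK, a0, b0, a1, b1, a2, b2⟩ := main hpos hz
        (a := pa) (b := pb) (by rw [im_pa]; norm_num) (by rw [im_pb]; norm_num) pa_ne_pb hs2 ht
        hs0 ht0
      refine ⟨m, hm, ![g ^ m * K0, g ^ m * K1, g ^ m * K2], ?_, ?_⟩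
      · rw [Fin.sum_univ_three]
        simp only [Matrix.cons_val_zero, Matrix.cons_val_one, Matrix.cons_val]
        rw [hs, mul_pow, hK]
        ring
      · intro i
        fin_cases i
        · simp only [Fin.zero_eta, Matrix.cons_val_zero, map_mul, map_pow]
          rw [a0, b0, ← mul_pow, ← mul_pow]
          congr 1
          field_simp
        · simp [a1, b1]
        · simp [a2, b2]

/-! ### The curve -/

/-- points of the cone over the curve -/
noncomputable def pt (t x : ℝ) : Fin (3 + 1) → ℝ := fun i => t * (phi i).eval x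

/-- the homogeneous vanishing ideal of the curve -/
noncomputable def I5 : Ideal (Poly 3) := van {p | ∃ t x, p = pt t x}

theorem mem_I5 {f : Poly 3} : f ∈ I5 ↔ ∀ t x, MvPolynomial.eval (pt t x) f = 0 := by
  constructor
  · intro h t x
    exact h _ ⟨t, x, rfl⟩
  · rintro h p ⟨t, x, rfl⟩
    exact h t x

theorem totallyReal_I5 : TotallyReal I5 := by
  refine totallyReal_van ?_
  rintro p ⟨t, x, rfl⟩ u
  refine ⟨u ^ 2 * t, x, ?_⟩
  funext i
  rw [pt, pt, mul_assoc]

theorem eval_phi (x : ℝ) (g : Poly 3) :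
    (MvPolynomial.aeval phi g).eval x = MvPolynomial.eval (fun i => (phi i).eval x) g := by
  induction g using MvPolynomial.induction_on with
  | C a => simp
  | add p q hp hq => rw [map_add, eval_add, map_add, hp, hq]
  | mul_X p i hp => rw [map_mul, eval_mul, map_mul, hp, MvPolynomial.aeval_X, MvPolynomial.eval_X]

theorem aeval_phi (z : ℂ) (g : Poly 3) :
    aeval z (MvPolynomial.aeval phi g) = MvPolynomial.aeval (fun i => aeval z (phi i)) g := by
  induction g using MvPolynomial.induction_on with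
  | C a => simp
  | add p q hp hq => rw [map_add, map_add, map_add, hp, hq]
  | mul_X p i hp => rw [map_mul, map_mul, map_mul, hp, MvPolynomial.aeval_X, MvPolynomial.aeval_X]

theorem eval_pt {g : Poly 3} {m : ℕ} (hg : g.IsHomogeneous m) (t x : ℝ) :
    MvPolynomial.eval (pt t x) g = t ^ m * (MvPolynomial.aeval phi g).eval x := by
  rw [eval_phi]
  exact aeval_scale hg t fun i => (phi i).eval x

theorem mem_I5_hom {g : Poly 3} {m : ℕ} (hg : g.IsHomogeneous m) :
    g ∈ I5 ↔ MvPolynomial.aeval phi g = 0 := by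
  rw [mem_I5]
  constructor
  · intro h
    refine Polynomial.funext fun x => ?_
    have := h 1 x
    rwa [eval_pt hg, one_pow, one_mul, ← eval_zero (x := x)] at this
  · intro h t x
    rw [eval_pt hg, h, eval_zero, mul_zero]

theorem phi_swap (i : Fin (3 + 1)) : aeval pb (phi i) = (-1) * aeval pa (phi i) := by
  have e3 : pa ^ 3 = - 729 * Complex.I := by rw [pow_succ, pa2, pa]; ring
  have f3 : pb ^ 3 = - 1000 * Complex.I := by rw [pow_succ, pb2, pb]; ring
  fin_cases i
  · change aeval pb (2 * X ^ 2 + 181 : ℝ[X]) = -1 * aeval pa (2 * X ^ 2 + 181 : ℝ[X])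
    rw [map_add, map_add, map_mul, map_mul, map_pow, map_pow, aeval_X, aeval_X, pa2, pb2,
      map_ofNat, map_ofNat, map_ofNat, map_ofNat]
    norm_num
  · change aeval pb (X ^ 3 + 91 * X : ℝ[X]) = -1 * aeval pa (X ^ 3 + 91 * X : ℝ[X])
    rw [map_add, map_add, map_mul, map_mul, map_pow, map_pow, aeval_X, aeval_X, e3, f3,
      map_ofNat, map_ofNat, pa, pb]
    ring
  · change aeval pb qc = -1 * aeval pa qc
    rw [qc_pa, qc_pb, mul_zero]
  · change aeval pb (X * qc) = -1 * aeval pa (X * qc)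
    rw [map_mul, map_mul, qc_pa, qc_pb, mul_zero, mul_zero, mul_zero]

theorem form_swap {g : Poly 3} {m : ℕ} (hg : g.IsHomogeneous m) :
    aeval pb (MvPolynomial.aeval phi g) = (-1) ^ m * aeval pa (MvPolynomial.aeval phi g) := by
  rw [aeval_phi, aeval_phi, ← aeval_scale hg]
  congr 2
  funext i
  exact phi_swap i

theorem natDegree_phi (i : Fin (3 + 1)) : (phi i).natDegree ≤ 5 := by
  fin_cases i
  · change (2 * X ^ 2 + 181 : ℝ[X]).natDegree ≤ 5
    compute_degree
    norm_num
  · change (X ^ 3 + 91 * X : ℝ[X]).natDegree ≤ 5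
    compute_degree
    norm_num
  · change qc.natDegree ≤ 5
    rw [qc_natDegree]; norm_num
  · change (X * qc).natDegree ≤ 5
    refine natDegree_mul_le.trans ?_
    rw [qc_natDegree, natDegree_X]

theorem natDegree_form {g : Poly 3} {m : ℕ} (hg : g.IsHomogeneous m) :
    (MvPolynomial.aeval phi g).natDegree ≤ 5 * m := by
  rw [MvPolynomial.aeval_def, MvPolynomial.eval₂_eq']
  refine natDegree_sum_le_of_forall_le _ _ fun d hd => ?_
  refine natDegree_mul_le.trans ?_
  rw [← Polynomial.C_eq_algebraMap, natDegree_C, zero_add]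
  refine (natDegree_prod_le _ _).trans ?_
  calc _ ≤ ∑ i, d i * 5 := Finset.sum_le_sum fun i _ =>
        natDegree_pow_le.trans (Nat.mul_le_mul_left _ (natDegree_phi i))
    _ = (∑ i, d i) * 5 := by rw [Finset.sum_mul]
    _ = m * 5 := by
      congr 1
      rw [hg.degree_eq_sum_deg_support hd]
      exact (Finset.sum_subset (Finset.subset_univ _)
        fun i _ hi => Finsupp.notMem_support_iff.1 hi).symm
    _ = _ := by ring

theorem not_stubborn4 (F : Poly 3 ⧸ I5) : ¬ Stubborn I5 2 F := by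
  rintro ⟨⟨f, hf, rfl⟩, hnn, hno⟩
  have hf' : f.IsHomogeneous 4 := hf
  set p := MvPolynomial.aeval phi f with hp
  have hp0 : ∀ x, 0 ≤ p.eval x := by
    intro x
    have h1 : pt 1 x ∈ realPts I5 := fun g hg => mem_I5.1 hg 1 x
    have h2 := hnn f rfl (pt 1 x) h1
    rwa [eval_pt hf', one_pow, one_mul] at h2
  have hab : aeval pa p = aeval pb p := by
    rw [hp, form_swap hf']
    norm_num
  obtain ⟨k, hk, q, hq, hqab⟩ := poly hp0 (natDegree_form hf') hab
  obtain ⟨k', rfl⟩ : ∃ k', k = k' + 1 := ⟨k - 1, by have := hk.pos; omega⟩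
  have hqd : ∀ i, (q i).natDegree ≤ 10 * (k' + 1) := by
    refine natDegree_le_of_sum_sq q _ ?_
    rw [← hq]
    refine natDegree_pow_le.trans ?_
    have := natDegree_form hf'
    rw [← hp] at this
    nlinarith
  have hqW : ∀ i, q i ∈ W (2 * (k' + 1)) := fun i => gen k' (q i) (hqd i) (hqab i)
  choose G hG hGq using fun i => mem_W.1 (hqW i)
  refine hno _ hk ⟨3, fun i => Ideal.Quotient.mk I5 (G i), fun i => ⟨G i, ?_, rfl⟩, ?_⟩
  · change (G i).IsHomogeneous _
    rw [mul_comm]
    exact hG i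
  · have h1 : (f ^ (k' + 1) - ∑ i, G i ^ 2).IsHomogeneous (4 * (k' + 1)) := by
      refine (hf'.pow _).sub (MvPolynomial.IsHomogeneous.sum _ _ _ fun i _ => ?_)
      have := (hG i).pow 2
      rwa [show 2 * (k' + 1) * 2 = 4 * (k' + 1) by ring] at this
    have h2 : f ^ (k' + 1) - ∑ i, G i ^ 2 ∈ I5 := by
      rw [mem_I5_hom h1, map_sub, map_pow, map_sum, ← hp, hq, sub_eq_zero]
      refine Finset.sum_congr rfl fun i _ => ?_
      rw [map_pow, hGq]
    rw [← Ideal.Quotient.eq_zero_iff_mem, map_sub, map_pow, map_sum, sub_eq_zero] at h2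
    refine h2.trans (Finset.sum_congr rfl fun i _ => ?_)
    rw [map_pow]

/-- the stubborn quadratic form (up to the factor `361`) -/
noncomputable def fq : Poly 3 := MvPolynomial.C (1 / 361) * (MvPolynomial.X 0 ^ 2) -
  MvPolynomial.C (4 / 361) * (MvPolynomial.X 0 * MvPolynomial.X 2) +
  MvPolynomial.C (4 / (45 * 361)) * (MvPolynomial.X 2 ^ 2) -
  MvPolynomial.C (4 / (45 * 361)) * (MvPolynomial.X 3 * MvPolynomial.X 1)

theorem fq_hom : fq.IsHomogeneous 2 := by
  refine (((((MvPolynomial.isHomogeneous_X _ _).pow 2).C_mul _).sub ?_).add ?_).sub ?_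
  · exact ((MvPolynomial.isHomogeneous_X _ _).mul (MvPolynomial.isHomogeneous_X _ _)).C_mul _
  · exact ((MvPolynomial.isHomogeneous_X _ _).pow 2).C_mul _
  · exact ((MvPolynomial.isHomogeneous_X _ _).mul (MvPolynomial.isHomogeneous_X _ _)).C_mul _

theorem fq_phi : MvPolynomial.aeval phi fq = 1 := by
  refine Polynomial.funext fun x => ?_
  rw [eval_phi, eval_one, fq]
  simp only [map_sub, map_add, map_mul, map_pow, MvPolynomial.eval_C, MvPolynomial.eval_X, phi0,
    phi1, phi2, phi3, qc, eval_mul, eval_add, eval_pow, eval_X, eval_ofNat]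
  ring

theorem pt_coords (t x : ℝ) : pt t x 0 = t * (2 * x ^ 2 + 181) ∧ pt t x 1 = t * (x ^ 3 + 91 * x) ∧
    pt t x 2 = t * ((x ^ 2 + 81) * (x ^ 2 + 100)) ∧
    pt t x 3 = t * (x * ((x ^ 2 + 81) * (x ^ 2 + 100))) := by
  simp only [pt, phi0, phi1, phi2, phi3, qc, eval_mul, eval_add, eval_pow, eval_X, eval_ofNat,
    and_self]

theorem fq_nonneg {p : Fin (3 + 1) → ℝ} (hp : p ∈ realPts I5) : 0 ≤ MvPolynomial.eval p fq := by
  have r1 := hp (MvPolynomial.X 0 * ((MvPolynomial.X 3 ^ 2 + 81 * MvPolynomial.X 2 ^ 2) *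
    (MvPolynomial.X 3 ^ 2 + 100 * MvPolynomial.X 2 ^ 2)) - MvPolynomial.X 2 ^ 3 *
    (2 * MvPolynomial.X 3 ^ 2 + 181 * MvPolynomial.X 2 ^ 2)) (mem_I5.2 fun t x => by
      obtain ⟨e0, e1, e2, e3⟩ := pt_coords t x
      simp only [map_sub, map_add, map_mul, map_pow, MvPolynomial.eval_X, map_ofNat, e0, e1, e2, e3]
      ring)
  have r2 := hp (MvPolynomial.X 1 * ((MvPolynomial.X 3 ^ 2 + 81 * MvPolynomial.X 2 ^ 2) *
    (MvPolynomial.X 3 ^ 2 + 100 * MvPolynomial.X 2 ^ 2)) - MvPolynomial.X 2 ^ 2 *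
    MvPolynomial.X 3 * (MvPolynomial.X 3 ^ 2 + 91 * MvPolynomial.X 2 ^ 2)) (mem_I5.2 fun t x => by
      obtain ⟨e0, e1, e2, e3⟩ := pt_coords t x
      simp only [map_sub, map_add, map_mul, map_pow, MvPolynomial.eval_X, map_ofNat, e0, e1, e2, e3]
      ring)
  have r3 := hp (32490 * MvPolynomial.X 1 ^ 2 + 729000 * MvPolynomial.X 0 ^ 2 -
    24390 * (MvPolynomial.X 0 * MvPolynomial.X 2) + 181 * (MvPolynomial.X 2 ^ 2 -
      MvPolynomial.X 3 * MvPolynomial.X 1)) (mem_I5.2 fun t x => by
      obtain ⟨e0, e1, e2, e3⟩ := pt_coords t x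
      simp only [map_sub, map_add, map_mul, map_pow, MvPolynomial.eval_X, map_ofNat, e0, e1, e2, e3]
      ring)
  simp only [map_sub, map_add, map_mul, map_pow, MvPolynomial.eval_X, map_ofNat] at r1 r2 r3
  rw [fq]
  simp only [map_sub, map_add, map_mul, map_pow, MvPolynomial.eval_C, MvPolynomial.eval_X]
  by_cases h2 : p 2 = 0
  · rw [h2] at r1 r2 r3 ⊢
    by_cases h3 : p 3 = 0
    · rw [h3] at r3 ⊢
      have h0 : p 0 = 0 := by
        have : p 0 ^ 2 = 0 := by nlinarith [sq_nonneg (p 0), sq_nonneg (p 1)]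
        exact pow_eq_zero_iff two_ne_zero |>.1 this
      rw [h0]
      norm_num
    · have h0 : p 0 = 0 := by
        have : p 0 * p 3 ^ 4 = 0 := by linarith
        exact (mul_eq_zero.1 this).resolve_right (pow_ne_zero 4 h3)
      have h1 : p 1 = 0 := by
        have : p 1 * p 3 ^ 4 = 0 := by linarith
        exact (mul_eq_zero.1 this).resolve_right (pow_ne_zero 4 h3)
      rw [h0, h1]
      norm_num
  · obtain ⟨t, x, rfl⟩ : ∃ t x, p = pt t x := by
      refine ⟨p 2 / (((p 3 / p 2) ^ 2 + 81) * ((p 3 / p 2) ^ 2 + 100)), p 3 / p 2, ?_⟩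
      obtain ⟨e0, e1, e2, e3⟩ := pt_coords (p 2 / (((p 3 / p 2) ^ 2 + 81) * ((p 3 / p 2) ^ 2 + 100)))
        (p 3 / p 2)
      have hA : 0 < p 3 ^ 2 + 81 * p 2 ^ 2 := by positivity
      have hB : 0 < p 3 ^ 2 + 100 * p 2 ^ 2 := by positivity
      funext i
      fin_cases i
      · refine Eq.trans ?_ e0.symm
        change p 0 = _
        field_simp
        linarith
      · refine Eq.trans ?_ e1.symm
        change p 1 = _
        field_simp
        linarith
      · refine Eq.trans ?_ e2.symm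
        change p 2 = _
        field_simp
      · refine Eq.trans ?_ e3.symm
        change p 3 = _
        field_simp
    have h4 := eval_pt fq_hom t x
    rw [fq_phi, eval_one, mul_one, fq] at h4
    simp only [map_sub, map_add, map_mul, map_pow, MvPolynomial.eval_C, MvPolynomial.eval_X] at h4
    rw [h4]
    positivity

theorem stubborn2 : Stubborn I5 1 (Ideal.Quotient.mk I5 fq) := by
  refine ⟨⟨fq, fq_hom, rfl⟩, nonneg_iff.2 fun p hp => fq_nonneg hp, ?_⟩
  rintro k hk ⟨r, G, hG, hsum⟩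
  choose g hg hgG using hG
  have hg' : ∀ i, (g i).IsHomogeneous k := fun i => by
    have : (g i).IsHomogeneous (k * 1) := hg i
    rwa [mul_one] at this
  have h1 : fq ^ k - ∑ i, g i ^ 2 ∈ I5 := by
    rw [← Ideal.Quotient.eq_zero_iff_mem, map_sub, map_pow, map_sum, sub_eq_zero]
    refine hsum.trans (Finset.sum_congr rfl fun i _ => ?_)
    rw [map_pow, ← hgG i]
    rfl
  have h2 : (fq ^ k - ∑ i, g i ^ 2).IsHomogeneous (2 * k) := by
    refine (fq_hom.pow _).sub (MvPolynomial.IsHomogeneous.sum _ _ _ fun i _ => ?_)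
    have := (hg' i).pow 2
    rwa [mul_comm] at this
  rw [mem_I5_hom h2, map_sub, map_pow, map_sum, fq_phi, one_pow, sub_eq_zero] at h1
  have h3 : ∑ i, (MvPolynomial.aeval phi (g i)) ^ 2 = (C 1 : ℝ[X]) := by
    rw [C_1, h1]
    exact Finset.sum_congr rfl fun i _ => (map_pow _ _ _).symm
  have h4 : ∀ i, MvPolynomial.aeval phi (g i) = (0 : ℝ[X]) := by
    intro i
    obtain ⟨u, hu⟩ := const_of_sum_sq _ 1 h3 i
    have h5 := form_swap (hg' i)
    rw [hu, aeval_C, aeval_C, hk.neg_one_pow, Complex.coe_algebraMap] at h5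
    have h6 : (u : ℂ) = 0 := by linear_combination h5 / 2
    have h7 : u = 0 := by exact_mod_cast h6
    rw [hu, h7, C_0]
  rw [Finset.sum_congr rfl fun i _ => by rw [h4 i, zero_pow two_ne_zero], Finset.sum_const_zero,
    C_1] at h3
  exact zero_ne_one h3

/-- the parametrisation by polynomials in two variables -/
noncomputable def par : Fin (3 + 1) → MvPolynomial (Fin 2) ℝ :=
  ![MvPolynomial.X 0 * (2 * MvPolynomial.X 1 ^ 2 + 181),
    MvPolynomial.X 0 * (MvPolynomial.X 1 ^ 3 + 91 * MvPolynomial.X 1),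
    MvPolynomial.X 0 * ((MvPolynomial.X 1 ^ 2 + 81) * (MvPolynomial.X 1 ^ 2 + 100)),
    MvPolynomial.X 0 * (MvPolynomial.X 1 * ((MvPolynomial.X 1 ^ 2 + 81) *
      (MvPolynomial.X 1 ^ 2 + 100)))]

theorem mem_I5_iff_par {f : Poly 3} : f ∈ I5 ↔ MvPolynomial.aeval par f = 0 := by
  have h1 : ∀ q : Fin 2 → ℝ, MvPolynomial.eval q (MvPolynomial.aeval par f) =
      MvPolynomial.eval (pt (q 0) (q 1)) f := by
    intro q
    have h2 : (fun i => MvPolynomial.eval q (par i)) = pt (q 0) (q 1) := by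
      obtain ⟨e0, e1, e2, e3⟩ := pt_coords (q 0) (q 1)
      funext i
      fin_cases i
      · refine Eq.trans ?_ e0.symm
        simp [par]
      · refine Eq.trans ?_ e1.symm
        simp [par]
      · refine Eq.trans ?_ e2.symm
        simp [par]
      · refine Eq.trans ?_ e3.symm
        simp [par]
    rw [← h2]
    induction f using MvPolynomial.induction_on with
    | C a => simp
    | add p q hp hq => rw [map_add, map_add, map_add, hp, hq]
    | mul_X p i hp => rw [map_mul, map_mul, map_mul, hp, MvPolynomial.aeval_X, MvPolynomial.eval_X]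
  rw [mem_I5]
  constructor
  · intro h
    refine MvPolynomial.funext fun q => ?_
    rw [h1, h, map_zero]
  · intro h a b
    have := h1 ![a, b]
    rw [h, map_zero] at this
    exact this.symm

theorem isPrime_I5 : I5.IsPrime := by
  refine ⟨fun h => ?_, fun {f g} hfg => ?_⟩
  · have h1 : (1 : Poly 3) ∈ I5 := by rw [h]; trivial
    rw [mem_I5_iff_par, map_one] at h1
    exact one_ne_zero h1
  · rw [mem_I5_iff_par, map_mul] at hfg
    rw [mem_I5_iff_par, mem_I5_iff_par]
    exact mul_eq_zero.1 hfg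

end Q49.SG
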