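import Pool.Agent.Q49.SG.Sos

/-!
# Hermite interpolation at two complex points
-/

set_option autoImplicit false

namespace Q49.SG

open Polynomial

section

variable (a b : ℂ)

/-- the basis polynomial with value `1` at `a` -/
noncomputable def E1 : ℂ[X] :=
  C ((a - b)⁻¹) ^ 2 * ((X - C b) ^ 2 * (1 - 2 * C ((a - b)⁻¹) * (X - C a)))

/-- the basis polynomial with derivative `1` at `a` -/
noncomputable def E2 : ℂ[X] := C ((a - b)⁻¹) ^ 2 * ((X - C b) ^ 2 * (X - C a))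

/-- Hermite interpolation of prescribed values and derivatives -/
noncomputable def her (y y' z z' : ℂ) : ℂ[X] :=
  C y * E1 a b + C y' * E2 a b + C z * E1 b a + C z' * E2 b a

/-- the modulus -/
noncomputable def wmod : ℂ[X] := (X - C a) ^ 2 * (X - C b) ^ 2

variable {a b}

theorem wmod_symm : wmod a b = wmod b a := by unfold wmod; ring

theorem her_symm (y y' z z' : ℂ) : her a b y y' z z' = her b a z z' y y' := by unfold her; ring

theorem inv_mul_C (hab : a ≠ b) : (C ((a - b)⁻¹) * (C a - C b) : ℂ[X]) = 1 := by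
  rw [← C_sub, ← C_mul, inv_mul_cancel₀ (sub_ne_zero.2 hab), C_1]

theorem E1_mod (hab : a ≠ b) : (X - C a) ^ 2 ∣ E1 a b - 1 := by
  refine ⟨- C ((a - b)⁻¹) ^ 2 * (3 + 2 * C ((a - b)⁻¹) * (X - C a)), ?_⟩
  have h := inv_mul_C hab
  have h2 : (X - C b : ℂ[X]) = (X - C a) + (C a - C b) := by ring
  unfold E1
  rw [h2]
  generalize (X - C a : ℂ[X]) = t at *
  generalize (C ((a - b)⁻¹) : ℂ[X]) = u at *
  generalize (C a - C b : ℂ[X]) = v at *
  linear_combination (2 * t * u + u * v + 1 - 4 * t ^ 2 * u ^ 2 - 2 * t * u ^ 2 * v - 2 * t * u) * h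

theorem E2_mod (hab : a ≠ b) : (X - C a) ^ 2 ∣ E2 a b - (X - C a) := by
  refine ⟨C ((a - b)⁻¹) ^ 2 * ((X - C a) + 2 * (C a - C b)), ?_⟩
  have h := inv_mul_C hab
  have h2 : (X - C b : ℂ[X]) = (X - C a) + (C a - C b) := by ring
  unfold E2
  rw [h2]
  generalize (X - C a : ℂ[X]) = t at *
  generalize (C ((a - b)⁻¹) : ℂ[X]) = u at *
  generalize (C a - C b : ℂ[X]) = v at *
  linear_combination t * (u * v + 1) * h

theorem her_mod (hab : a ≠ b) (y y' z z' : ℂ) :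
    (X - C a) ^ 2 ∣ her a b y y' z z' - (C y + C y' * (X - C a)) := by
  obtain ⟨p, hp⟩ := E1_mod hab
  obtain ⟨q, hq⟩ := E2_mod hab
  refine ⟨C y * p + C y' * q + C z * (C ((b - a)⁻¹) ^ 2 * (1 - 2 * C ((b - a)⁻¹) * (X - C b))) +
    C z' * (C ((b - a)⁻¹) ^ 2 * (X - C b)), ?_⟩
  have h1 : her a b y y' z z' - (C y + C y' * (X - C a)) = C y * (E1 a b - 1) +
      C y' * (E2 a b - (X - C a)) + C z * E1 b a + C z' * E2 b a := by
    unfold her; ring
  rw [h1, hp, hq]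
  unfold E1 E2
  ring

theorem taylor_mod (g : ℂ[X]) (a : ℂ) :
    (X - C a) ^ 2 ∣ g - (C (g.eval a) + C ((derivative g).eval a) * (X - C a)) := by
  refine dvd_sq_of_root ?_ ?_
  · simp
  · simp

/-- the Hermite interpolant of a polynomial -/
noncomputable def Her (a b : ℂ) (g : ℂ[X]) : ℂ[X] :=
  her a b (g.eval a) ((derivative g).eval a) (g.eval b) ((derivative g).eval b)

theorem coprime_sq {c d : ℂ} (h : c ≠ d) : IsCoprime ((X - C c : ℂ[X]) ^ 2) ((X - C d) ^ 2) :=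
  (isCoprime_X_sub_C_of_isUnit_sub (isUnit_iff_ne_zero.2 (sub_ne_zero.2 h))).pow

theorem Her_mod (hab : a ≠ b) (g : ℂ[X]) : wmod a b ∣ g - Her a b g := by
  have key : ∀ {a b : ℂ}, a ≠ b → ∀ g : ℂ[X], (X - C a) ^ 2 ∣ g - Her a b g := by
    intro a b hab g
    have h1 := taylor_mod g a
    have h2 := her_mod hab (g.eval a) ((derivative g).eval a) (g.eval b) ((derivative g).eval b)
    have h3 := dvd_sub h1 h2
    have h4 : g - (C (g.eval a) + C ((derivative g).eval a) * (X - C a)) -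
      (her a b (g.eval a) ((derivative g).eval a) (g.eval b) ((derivative g).eval b) -
        (C (g.eval a) + C ((derivative g).eval a) * (X - C a))) = g - Her a b g := by
      unfold Her; ring
    rwa [h4] at h3
  have h2 : Her a b g = Her b a g := her_symm _ _ _ _
  refine (coprime_sq hab).mul_dvd (key hab g) ?_
  rw [h2]
  exact key hab.symm g

/-- Interpolating a square root. -/
theorem exists_sqrt (hab : a ≠ b) (h : ℂ[X]) {s t : ℂ} (hs : s ^ 2 = h.eval a)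
    (ht : t ^ 2 = h.eval b) (hs0 : s ≠ 0) (ht0 : t ≠ 0) :
    ∃ S : ℂ[X], wmod a b ∣ S ^ 2 - h ∧ S.eval a = s ∧ S.eval b = t := by
  have key : ∀ {a b s t y' z' : ℂ}, a ≠ b → s ^ 2 = h.eval a → s ≠ 0 →
      y' = (derivative h).eval a / (2 * s) →
      (X - C a) ^ 2 ∣ (her a b s y' t z') ^ 2 - h := by
    intro a b s t y' z' hab hs hs0 hy
    have h1 := taylor_mod h a
    have h2 := her_mod hab s y' t z'
    obtain ⟨p, hp⟩ := h1
    obtain ⟨q, hq⟩ := h2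
    have hp' : h = C (h.eval a) + C ((derivative h).eval a) * (X - C a) + (X - C a) ^ 2 * p := by
      linear_combination hp
    have hq' : her a b s y' t z' = C s + C y' * (X - C a) + (X - C a) ^ 2 * q := by
      linear_combination hq
    have h3 : (C (h.eval a) : ℂ[X]) = C s ^ 2 := by rw [← hs, map_pow]
    have h4 : (C ((derivative h).eval a) : ℂ[X]) = 2 * C s * C y' := by
      have h5 : (derivative h).eval a = 2 * s * y' := by rw [hy]; field_simp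
      rw [h5, map_mul, map_mul, map_ofNat]
    refine ⟨C y' ^ 2 + 2 * (C s + C y' * (X - C a)) * q + (X - C a) ^ 2 * q ^ 2 - p, ?_⟩
    rw [hq']
    linear_combination (-1 : ℂ[X]) * hp' - h3 - (X - C a) * h4
  refine ⟨her a b s ((derivative h).eval a / (2 * s)) t ((derivative h).eval b / (2 * t)), ?_, ?_,
    ?_⟩
  · refine (coprime_sq hab).mul_dvd (key hab hs hs0 rfl) ?_
    rw [her_symm]
    exact key hab.symm ht ht0 rfl
  · obtain ⟨q, hq⟩ := her_mod hab s ((derivative h).eval a / (2 * s)) t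
      ((derivative h).eval b / (2 * t))
    have := congrArg (eval a) hq
    simp only [eval_sub, eval_add, eval_mul, eval_C, eval_X, sub_self, mul_zero, add_zero,
      eval_pow, zero_pow two_ne_zero, zero_mul] at this
    exact sub_eq_zero.1 this
  · rw [her_symm]
    obtain ⟨q, hq⟩ := her_mod hab.symm t ((derivative h).eval b / (2 * t)) s
      ((derivative h).eval a / (2 * s))
    have := congrArg (eval b) hq
    simp only [eval_sub, eval_add, eval_mul, eval_C, eval_X, sub_self, mul_zero, add_zero,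
      eval_pow, zero_pow two_ne_zero, zero_mul] at this
    exact sub_eq_zero.1 this

end

/-! ### growth -/

/-- growth of order `d` on the real line -/
def Gr (p : ℂ[X]) (d : ℕ) : Prop :=
  ∃ c : ℝ, 0 ≤ c ∧ ∀ x : ℝ, ‖p.eval (x : ℂ)‖ ^ 2 ≤ c * (1 + x ^ 2) ^ d

theorem Gr.const (y : ℂ) : Gr (C y) 0 :=
  ⟨‖y‖ ^ 2, by positivity, fun x => by rw [eval_C, pow_zero, mul_one]⟩

theorem Gr.linear (y : ℂ) : Gr (X - C y) 1 := by
  refine ⟨2 * (1 + ‖y‖ ^ 2), by positivity, fun x => ?_⟩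
  rw [eval_sub, eval_X, eval_C, pow_one]
  have h1 : ‖(x : ℂ) - y‖ ≤ |x| + ‖y‖ := by
    refine (norm_sub_le _ _).trans ?_
    rw [Complex.norm_real, Real.norm_eq_abs]
  have h2 : ‖(x : ℂ) - y‖ ^ 2 ≤ (|x| + ‖y‖) ^ 2 := pow_le_pow_left₀ (norm_nonneg _) h1 2
  have h3 := sq_abs x
  nlinarith [sq_nonneg (|x| - ‖y‖), sq_nonneg (x * ‖y‖), norm_nonneg y]

theorem Gr.mul {p q : ℂ[X]} {d e : ℕ} (hp : Gr p d) (hq : Gr q e) : Gr (p * q) (d + e) := by
  obtain ⟨c, hc, h1⟩ := hp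
  obtain ⟨c', hc', h2⟩ := hq
  refine ⟨c * c', by positivity, fun x => ?_⟩
  rw [eval_mul, norm_mul, mul_pow]
  calc _ ≤ (c * (1 + x ^ 2) ^ d) * (c' * (1 + x ^ 2) ^ e) :=
        mul_le_mul (h1 x) (h2 x) (by positivity) (by positivity)
    _ = _ := by ring

theorem Gr.pow {p : ℂ[X]} {d : ℕ} (hp : Gr p d) (k : ℕ) : Gr (p ^ k) (k * d) := by
  induction k with
  | zero => rw [pow_zero, zero_mul]; exact Gr.const 1
  | succ k ih => rw [pow_succ, Nat.succ_mul]; exact ih.mul hp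

theorem Gr.mono {p : ℂ[X]} {d e : ℕ} (hp : Gr p d) (hde : d ≤ e) : Gr p e := by
  obtain ⟨c, hc, h1⟩ := hp
  exact ⟨c, hc, fun x => (h1 x).trans (mul_le_mul_of_nonneg_left
    (pow_le_pow_right₀ (by nlinarith [sq_nonneg x]) hde) hc)⟩

theorem Gr.add {p q : ℂ[X]} {d : ℕ} (hp : Gr p d) (hq : Gr q d) : Gr (p + q) d := by
  obtain ⟨c, hc, h1⟩ := hp
  obtain ⟨c', hc', h2⟩ := hq
  refine ⟨2 * (c + c'), by positivity, fun x => ?_⟩
  rw [eval_add]
  have h3 : ‖p.eval (x : ℂ) + q.eval (x : ℂ)‖ ^ 2 ≤ (‖p.eval (x : ℂ)‖ + ‖q.eval (x : ℂ)‖) ^ 2 :=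
    pow_le_pow_left₀ (norm_nonneg _) (norm_add_le _ _) 2
  have := h1 x
  have := h2 x
  nlinarith [sq_nonneg (‖p.eval (x : ℂ)‖ - ‖q.eval (x : ℂ)‖)]

theorem Gr.E1 (a b : ℂ) : Gr (E1 a b) 3 := by
  unfold Q49.SG.E1
  have h1 : (1 - 2 * C ((a - b)⁻¹) * (X - C a) : ℂ[X]) =
      C 1 + C (-(2 * (a - b)⁻¹)) * (X - C a) := by
    rw [C_1, C_neg, C_mul, map_ofNat]; ring
  rw [h1]
  have h2 : Gr (C 1 + C (-(2 * (a - b)⁻¹)) * (X - C a) : ℂ[X]) 1 :=
    ((Gr.const 1).mono (by norm_num)).add (((Gr.const _).mul (Gr.linear a)).mono (by norm_num))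
  exact (((Gr.const _).pow 2).mul (((Gr.linear b).pow 2).mul h2)).mono (by norm_num)

theorem Gr.E2 (a b : ℂ) : Gr (E2 a b) 3 := by
  unfold Q49.SG.E2
  exact (((Gr.const _).pow 2).mul (((Gr.linear b).pow 2).mul (Gr.linear a))).mono (by norm_num)

theorem Gr.wmod (a b : ℂ) : Gr (wmod a b) 4 := by
  unfold Q49.SG.wmod
  exact (((Gr.linear a).pow 2).mul ((Gr.linear b).pow 2)).mono (by norm_num)

/-- Hermite interpolants with small data are small. -/
theorem her_small (a b : ℂ) : ∃ c : ℝ, 0 ≤ c ∧ ∀ (y y' z z' : ℂ) (x : ℝ),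
    ‖(her a b y y' z z').eval (x : ℂ)‖ ^ 2 ≤
      c * (‖y‖ + ‖y'‖ + ‖z‖ + ‖z'‖) ^ 2 * (1 + x ^ 2) ^ 3 := by
  obtain ⟨c1, hc1, h1⟩ := Gr.E1 a b
  obtain ⟨c2, hc2, h2⟩ := Gr.E2 a b
  obtain ⟨c3, hc3, h3⟩ := Gr.E1 b a
  obtain ⟨c4, hc4, h4⟩ := Gr.E2 b a
  refine ⟨c1 + c2 + c3 + c4, by positivity, fun y y' z z' x => ?_⟩
  set m := (c1 + c2 + c3 + c4) * (1 + x ^ 2) ^ 3 with hm
  have hm0 : 0 ≤ m := by positivity
  have hx : 0 ≤ (1 + x ^ 2) ^ 3 := by positivity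
  have key : ∀ (p : ℂ[X]) (c : ℝ), c ≤ c1 + c2 + c3 + c4 →
      ‖p.eval (x : ℂ)‖ ^ 2 ≤ c * (1 + x ^ 2) ^ 3 → ‖p.eval (x : ℂ)‖ ≤ Real.sqrt m := by
    intro p c hc hp
    exact Real.le_sqrt_of_sq_le (hp.trans (mul_le_mul_of_nonneg_right hc hx))
  have k1 := key _ c1 (by linarith) (h1 x)
  have k2 := key _ c2 (by linarith) (h2 x)
  have k3 := key _ c3 (by linarith) (h3 x)
  have k4 := key _ c4 (by linarith) (h4 x)
  have h5 : ‖(her a b y y' z z').eval (x : ℂ)‖ ≤ (‖y‖ + ‖y'‖ + ‖z‖ + ‖z'‖) * Real.sqrt m := by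
    unfold her
    simp only [eval_add, eval_mul, eval_C]
    refine (norm_add_le _ _).trans ?_
    refine (add_le_add (norm_add_le _ _) le_rfl).trans ?_
    refine (add_le_add (add_le_add (norm_add_le _ _) le_rfl) le_rfl).trans ?_
    rw [norm_mul, norm_mul, norm_mul, norm_mul]
    have l1 := mul_le_mul_of_nonneg_left k1 (norm_nonneg y)
    have l2 := mul_le_mul_of_nonneg_left k2 (norm_nonneg y')
    have l3 := mul_le_mul_of_nonneg_left k3 (norm_nonneg z)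
    have l4 := mul_le_mul_of_nonneg_left k4 (norm_nonneg z')
    linarith
  calc _ ≤ ((‖y‖ + ‖y'‖ + ‖z‖ + ‖z'‖) * Real.sqrt m) ^ 2 :=
        pow_le_pow_left₀ (norm_nonneg _) h5 2
    _ = (‖y‖ + ‖y'‖ + ‖z‖ + ‖z'‖) ^ 2 * m := by rw [mul_pow, Real.sq_sqrt hm0]
    _ = _ := by rw [hm]; ring

end Q49.SG
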