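import Pool.Agent.Q49.SG.Herm

/-!
# The interpolants of high powers of a Blaschke factor tend to zero
-/

set_option autoImplicit false

namespace Q49.SG

open Polynomial Filter Topology

theorem exists_re (Q : ℂ[X]) :
    ∃ r : ℝ[X], r.map (algebraMap ℝ ℂ) = Q + Q.map (starRingEnd ℂ) := by
  refine ⟨∑ i ∈ Finset.range (Q.natDegree + 1), monomial i (2 * (Q.coeff i).re), ?_⟩
  ext k
  rw [coeff_map, finsetSum_coeff, coeff_add, coeff_map]
  have h1 : (Q.coeff k + starRingEnd ℂ (Q.coeff k)) = ((2 * (Q.coeff k).re : ℝ) : ℂ) :=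
    Complex.add_conj _
  rw [h1]
  simp only [coeff_monomial]
  rw [Finset.sum_ite_eq']
  split_ifs with hk
  · rfl
  · rw [coeff_eq_zero_of_natDegree_lt (by rw [Finset.mem_range] at hk; omega)]
    simp

theorem eval_re {Q : ℂ[X]} {r : ℝ[X]} (h : r.map (algebraMap ℝ ℂ) = Q + Q.map (starRingEnd ℂ))
    (x : ℝ) : |r.eval x| ≤ 2 * ‖Q.eval (x : ℂ)‖ := by
  have h1 := congrArg (eval (x : ℂ)) h
  have h2 : (r.map (algebraMap ℝ ℂ)).eval (x : ℂ) = ((r.eval x : ℝ) : ℂ) := by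
    rw [eval_map]
    exact (hom_eval₂ r (RingHom.id ℝ) (algebraMap ℝ ℂ) x).symm
  have h3 : (Q.map (starRingEnd ℂ)).eval (x : ℂ) = starRingEnd ℂ (Q.eval (x : ℂ)) := by
    have h4 : (x : ℂ) = starRingEnd ℂ (x : ℂ) := (Complex.conj_ofReal x).symm
    rw [h4, eval_map_apply]
    simp
  rw [h2, eval_add, h3, Complex.add_conj] at h1
  have h5 : r.eval x = 2 * (Q.eval (x : ℂ)).re := by exact_mod_cast h1
  rw [h5, abs_mul, abs_two]
  exact mul_le_mul_of_nonneg_left (Complex.abs_re_le_norm _) (by norm_num)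

theorem small_pow {g r : ℂ} (hr : ‖r‖ < 1) :
    Tendsto (fun M : ℕ => ‖g * r ^ (M + 1)‖) atTop (𝓝 0) := by
  have h1 : Tendsto (fun M : ℕ => ‖g‖ * ‖r‖ ^ (M + 1)) atTop (𝓝 (‖g‖ * 0)) :=
    ((tendsto_pow_atTop_nhds_zero_of_lt_one (norm_nonneg _) hr).comp
      (tendsto_add_atTop_nat 1)).const_mul _
  rw [mul_zero] at h1
  simpa only [norm_mul, norm_pow] using h1

theorem small_pow' {g r : ℂ} (hr : ‖r‖ < 1) :
    Tendsto (fun M : ℕ => ‖g * (((M : ℂ) + 1) * r ^ M)‖) atTop (𝓝 0) := by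
  have h1 : Tendsto (fun M : ℕ => ‖g‖ * ((M : ℝ) * ‖r‖ ^ M + ‖r‖ ^ M)) atTop
      (𝓝 (‖g‖ * (0 + 0))) :=
    ((tendsto_self_mul_const_pow_of_lt_one (norm_nonneg _) hr).add
      (tendsto_pow_atTop_nhds_zero_of_lt_one (norm_nonneg _) hr)).const_mul _
  rw [add_zero, mul_zero] at h1
  refine h1.congr fun M => ?_
  rw [norm_mul, norm_mul, norm_pow]
  have h2 : ‖(M : ℂ) + 1‖ = (M : ℝ) + 1 := by
    have h3 : (M : ℂ) + 1 = (((M : ℝ) + 1 : ℝ) : ℂ) := by push_cast; rfl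
    rw [h3, Complex.norm_real, Real.norm_of_nonneg (by positivity)]
  rw [h2]
  ring

/-- the size of the interpolation data of `d * q ^ (M + 1)` -/
noncomputable def siz (a b : ℂ) (g : ℂ[X]) : ℝ :=
  ‖g.eval a‖ + ‖(derivative g).eval a‖ + ‖g.eval b‖ + ‖(derivative g).eval b‖

theorem siz_tendsto (a b : ℂ) (d q : ℂ[X]) (ha : ‖q.eval a‖ < 1) (hb : ‖q.eval b‖ < 1) :
    Tendsto (fun M : ℕ => siz a b (d * q ^ (M + 1))) atTop (𝓝 0) := by
  have key : ∀ c : ℂ, ‖q.eval c‖ < 1 →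
      Tendsto (fun M : ℕ => ‖(derivative (d * q ^ (M + 1))).eval c‖) atTop (𝓝 0) := by
    intro c hc
    have h1 := (small_pow (g := (derivative d).eval c) hc).add
      (small_pow' (g := d.eval c * (derivative q).eval c) hc)
    rw [add_zero] at h1
    refine squeeze_zero (fun _ => norm_nonneg _) (fun M => ?_) h1
    have h2 : (derivative (d * q ^ (M + 1))).eval c = (derivative d).eval c * q.eval c ^ (M + 1) +
        d.eval c * (derivative q).eval c * (((M : ℂ) + 1) * q.eval c ^ M) := by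
      rw [derivative_mul, derivative_pow_succ]
      simp only [eval_add, eval_mul, eval_pow, eval_C]
      simp
      ring
    rw [h2]
    exact norm_add_le _ _
  have h1 : ∀ c : ℂ, ‖q.eval c‖ < 1 →
      Tendsto (fun M : ℕ => ‖(d * q ^ (M + 1)).eval c‖) atTop (𝓝 0) := by
    intro c hc
    refine (small_pow (g := d.eval c) hc).congr fun M => ?_
    rw [eval_mul, eval_pow]
  have h2 := (((h1 a ha).add (key a ha)).add (h1 b hb)).add (key b hb)
  simp only [add_zero] at h2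
  exact h2

end Q49.SG
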