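import Pool.Agent.Q49.SG.Lim

/-!
# Sums of squares with prescribed square roots at two non-real points
-/

set_option autoImplicit false

namespace Q49.SG

open Polynomial Filter Topology

/-- the complexification of a real polynomial -/
noncomputable abbrev cx (p : ℝ[X]) : ℂ[X] := p.map (algebraMap ℝ ℂ)

theorem cx_eval (p : ℝ[X]) (z : ℂ) : (cx p).eval z = aeval z p := by
  rw [eval_map, aeval_def]

theorem cx_real (p : ℝ[X]) (x : ℝ) : (cx p).eval (x : ℂ) = ((p.eval x : ℝ) : ℂ) := by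
  rw [cx_eval]
  exact aeval_algebraMap_apply_eq_algebraMap_eval x p

theorem cx_conj (p : ℝ[X]) : (cx p).map (starRingEnd ℂ) = cx p := by
  ext i
  rw [coeff_map, coeff_map]
  exact Complex.conj_ofReal _

theorem X_sub_conj (c : ℂ) : (X - C c : ℂ[X]).map (starRingEnd ℂ) = X - C (starRingEnd ℂ c) := by
  rw [Polynomial.map_sub, map_X, map_C]

theorem quad_cx (c : ℂ) : cx ((X - C c.re) ^ 2 + C (c.im ^ 2)) =
    (X - C c) * (X - C (starRingEnd ℂ c)) := by
  have h1 : (C c : ℂ[X]) = C ((c.re : ℝ) : ℂ) + C ((c.im : ℝ) : ℂ) * C Complex.I := by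
    rw [← C_mul, ← C_add, Complex.re_add_im]
  have h2 : (C (starRingEnd ℂ c) : ℂ[X]) =
      C ((c.re : ℝ) : ℂ) - C ((c.im : ℝ) : ℂ) * C Complex.I := by
    rw [← C_mul, ← C_sub]
    congr 1
    apply Complex.ext <;> simp
  have h3 : (C Complex.I : ℂ[X]) ^ 2 = -1 := by
    rw [← C_pow, Complex.I_sq, C_neg, C_1]
  rw [h1, h2]
  simp only [Polynomial.map_add, Polynomial.map_pow, Polynomial.map_sub, map_X, map_C, map_pow]
  change (X - C ((c.re : ℝ) : ℂ)) ^ 2 + (C ((c.im : ℝ) : ℂ)) ^ 2 = _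
  linear_combination ((C ((c.im : ℝ) : ℂ)) ^ 2 : ℂ[X]) * h3

/-- a lower bound for positive polynomials of positive degree -/
theorem lower {z : ℂ} (hz : z.im ≠ 0) {h1 : ℝ[X]} (hpos : ∀ x, 0 < h1.eval x) :
    ∃ ε > (0 : ℝ), ∀ x, ε * (1 + x ^ 2) ≤ (((X - C z.re) ^ 2 + C (z.im ^ 2)) * h1).eval x := by
  obtain ⟨ε2, hε2, h2⟩ := pos_lower hpos
  have hb : 0 < z.im ^ 2 := by positivity
  have hD : 0 < 2 * (1 + z.re ^ 2 + z.im ^ 2) := by positivity
  refine ⟨z.im ^ 2 / (2 * (1 + z.re ^ 2 + z.im ^ 2)) * ε2, by positivity, fun x => ?_⟩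
  rw [eval_mul]
  have h3 : z.im ^ 2 / (2 * (1 + z.re ^ 2 + z.im ^ 2)) * (1 + x ^ 2) ≤
      ((X - C z.re) ^ 2 + C (z.im ^ 2) : ℝ[X]).eval x := by
    simp only [eval_add, eval_pow, eval_sub, eval_X, eval_C]
    rw [div_mul_eq_mul_div, div_le_iff₀ hD]
    nlinarith [sq_nonneg (x - z.re), sq_nonneg (x - 2 * z.re), sq_nonneg z.re, sq_nonneg x,
      mul_nonneg hb.le (sq_nonneg (x - 2 * z.re)), mul_nonneg (sq_nonneg z.re)
      (sq_nonneg (x - z.re)), mul_nonneg hb.le (sq_nonneg (x - z.re)), sq_nonneg (z.im ^ 2)]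
  calc _ = z.im ^ 2 / (2 * (1 + z.re ^ 2 + z.im ^ 2)) * (1 + x ^ 2) * ε2 := by ring
    _ ≤ _ := mul_le_mul h3 (h2 x) hε2.le (le_trans (by positivity) h3)

theorem norm_lt {a z : ℂ} (ha : 0 < a.im) (hz : 0 < z.im) :
    ‖a - z‖ < ‖a - starRingEnd ℂ z‖ := by
  have h1 : ‖a - z‖ ^ 2 < ‖a - starRingEnd ℂ z‖ ^ 2 := by
    rw [← Complex.normSq_eq_norm_sq, ← Complex.normSq_eq_norm_sq, Complex.normSq_apply,
      Complex.normSq_apply]
    simp only [Complex.sub_re, Complex.sub_im, Complex.conj_re, Complex.conj_im]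
    nlinarith [mul_pos ha hz]
  exact lt_of_pow_lt_pow_left₀ 2 (norm_nonneg _) h1

theorem main {h : ℝ[X]} (hpos : ∀ x, 0 < h.eval x) (hdeg : 0 < h.natDegree) {a b : ℂ}
    (ha : 0 < a.im) (hb : 0 < b.im) (hab : a ≠ b) {s t : ℂ} (hs : s ^ 2 = aeval a h)
    (ht : t ^ 2 = aeval b h) (hs0 : s ≠ 0) (ht0 : t ≠ 0) :
    ∃ m : ℕ, Odd m ∧ ∃ K0 K1 K2 : ℝ[X], h ^ m = K0 ^ 2 + K1 ^ 2 + K2 ^ 2 ∧
      aeval a K0 = s ^ m ∧ aeval b K0 = t ^ m ∧ aeval a K1 = 0 ∧ aeval b K1 = 0 ∧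
      aeval a K2 = 0 ∧ aeval b K2 = 0 := by
  -- a root in the upper half plane
  obtain ⟨z, hz, hzim⟩ : ∃ z : ℂ, aeval z h = 0 ∧ 0 < z.im := by
    obtain ⟨z, hz⟩ := exists_complex_root hdeg
    rcases lt_trichotomy z.im 0 with h1 | h1 | h1
    · refine ⟨starRingEnd ℂ z, ?_, by rw [Complex.conj_im]; linarith⟩
      have h2 : aeval (starRingEnd ℂ z) h = starRingEnd ℂ (aeval z h) :=
        aeval_conj h z
      rw [h2, hz, map_zero]
    · exfalso
      have h2 : z = ((z.re : ℝ) : ℂ) := Complex.ext rfl (by rw [h1]; simp)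
      have h3 : aeval ((z.re : ℝ) : ℂ) h = ((h.eval z.re : ℝ) : ℂ) :=
        aeval_algebraMap_apply_eq_algebraMap_eval z.re h
      rw [h2, h3] at hz
      have h4 : h.eval z.re = 0 := by exact_mod_cast hz
      exact (hpos z.re).ne' h4
    · exact ⟨z, hz, h1⟩
  obtain ⟨h1, hh1⟩ := sq_dvd_aux hz hzim.ne'
  set n : ℝ[X] := (X - C z.re) ^ 2 + C (z.im ^ 2) with hn
  have hnpos : ∀ x, 0 < n.eval x := fun x => by
    rw [hn]
    simp only [eval_add, eval_pow, eval_sub, eval_X, eval_C]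
    positivity
  have h1pos : ∀ x, 0 < h1.eval x := fun x => by
    have := hpos x
    rw [hh1, eval_mul] at this
    exact (mul_pos_iff_of_pos_left (hnpos x)).1 this
  set P : ℂ[X] := X - C (starRingEnd ℂ z) with hP
  set Pb : ℂ[X] := X - C z with hPb
  have hncx : cx n = Pb * P := quad_cx z
  have hcxh : cx h = Pb * P * cx h1 := by
    have := congrArg cx hh1
    rw [this, cx, Polynomial.map_mul]
    rw [← hncx]
  set w : ℂ[X] := wmod a b with hw
  set wb : ℂ[X] := wmod (starRingEnd ℂ a) (starRingEnd ℂ b) with hwb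
  have hane : ∀ c d : ℂ, 0 < c.im → 0 < d.im → starRingEnd ℂ c ≠ d := by
    intro c d hc hd he
    rw [← he, Complex.conj_im] at hd
    linarith
  have hcop : ∀ c d : ℂ, c ≠ d → IsCoprime (X - C c : ℂ[X]) ((X - C d) ^ 2) := fun c d hcd =>
    (isCoprime_X_sub_C_of_isUnit_sub (isUnit_iff_ne_zero.2 (sub_ne_zero.2 hcd))).pow_right
  have hcopP : IsCoprime P w := by
    rw [hw, wmod]
    exact IsCoprime.mul_right (hcop _ _ (hane z a hzim ha)) (hcop _ _ (hane z b hzim hb))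
  have hcopw : IsCoprime wb w := by
    rw [hw, hwb, wmod, wmod]
    refine IsCoprime.mul_left ?_ ?_
    · exact IsCoprime.mul_right (coprime_sq (hane a a ha ha)) (coprime_sq (hane a b ha hb))
    · exact IsCoprime.mul_right (coprime_sq (hane b a hb ha)) (coprime_sq (hane b b hb hb))
  obtain ⟨u, v, huv⟩ := hcopP
  obtain ⟨u2, v2, huv2⟩ := hcopw
  obtain ⟨S, hS, hSa, hSb⟩ := exists_sqrt hab (cx h) (s := s) (t := t) (by rw [cx_eval]; exact hs)
    (by rw [cx_eval]; exact ht) hs0 ht0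
  have hwa : w.eval a = 0 := by rw [hw, wmod]; simp
  have hwb' : w.eval b = 0 := by rw [hw, wmod]; simp
  have hq : ∀ c : ℂ, 0 < c.im → w.eval c = 0 → ‖(Pb * u).eval c‖ < 1 := by
    intro c hc hwc
    have e1 := congrArg (eval c) huv
    rw [eval_add, eval_mul, eval_mul, hwc, mul_zero, add_zero, eval_one] at e1
    have e2 : P.eval c = c - starRingEnd ℂ z := by rw [hP]; simp
    have e3 : Pb.eval c = c - z := by rw [hPb]; simp
    have e4 := norm_lt hc hzim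
    rw [eval_mul, e3, norm_mul]
    rw [e2] at e1
    have e5 : ‖u.eval c‖ * ‖c - starRingEnd ℂ z‖ = 1 := by rw [← norm_mul, e1, norm_one]
    have e6 : 0 < ‖u.eval c‖ := by
      rcases (norm_nonneg (u.eval c)).lt_or_eq with h | h
      · exact h
      · rw [← h, zero_mul] at e5
        exact absurd e5 zero_ne_one
    calc ‖c - z‖ * ‖u.eval c‖ < ‖c - starRingEnd ℂ z‖ * ‖u.eval c‖ :=
          mul_lt_mul_of_pos_right e4 e6
      _ = 1 := by rw [mul_comm, e5]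
  have hlim := siz_tendsto a b (S ^ 7 * u2) (Pb * u) (hq a ha hwa) (hq b hb hwb')
  obtain ⟨cw, hcw, hgw⟩ := Gr.wmod (starRingEnd ℂ a) (starRingEnd ℂ b)
  obtain ⟨ch, hch, hsmall⟩ := her_small a b
  obtain ⟨ε, hε, hlow⟩ := lower hzim.ne' h1pos
  rw [← hh1] at hlow
  -- choose `M`
  have hlim2 : Tendsto (fun M : ℕ => 4 * (cw * (ch * (siz a b (S ^ 7 * u2 * (Pb * u) ^ (M + 1))) ^ 2)))
      atTop (𝓝 (4 * (cw * (ch * 0 ^ 2)))) :=
    (((hlim.pow 2).const_mul _).const_mul _).const_mul _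
  rw [zero_pow two_ne_zero, mul_zero, mul_zero, mul_zero] at hlim2
  obtain ⟨M, hM⟩ := (hlim2.eventually (gt_mem_nhds (show (0 : ℝ) < ε ^ 7 by positivity))).exists
  set g : ℂ[X] := S ^ 7 * u2 * (Pb * u) ^ (M + 1) with hg
  set ρ : ℂ[X] := Her a b g with hρ
  obtain ⟨r, hr⟩ := exists_re (wb * ρ * P ^ (2 * (M + 1)))
  set K0 : ℝ[X] := h1 ^ (M + 1) * r with hK0
  set m := 2 * (M + 1) + 7 with hm
  refine ⟨m, ⟨M + 4, by omega⟩, ?_⟩
  -- the congruence
  have hPconj : (wb * ρ * P ^ (2 * (M + 1))).map (starRingEnd ℂ) =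
      w * (ρ.map (starRingEnd ℂ) * (P ^ (2 * (M + 1))).map (starRingEnd ℂ)) := by
    have e1 : wb.map (starRingEnd ℂ) = w := by
      rw [hwb, hw, wmod, wmod]
      simp only [Polynomial.map_mul, Polynomial.map_pow, X_sub_conj, Complex.conj_conj]
    rw [Polynomial.map_mul, Polynomial.map_mul, e1]
    ring
  have hcong : w ∣ cx K0 - S ^ m := by
    let π := Ideal.Quotient.mk (Ideal.span {w})
    have hπ : ∀ f : ℂ[X], π f = 0 ↔ w ∣ f := fun f => by
      rw [Ideal.Quotient.eq_zero_iff_mem, Ideal.mem_span_singleton]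
    have p0 : π w = 0 := (hπ w).2 dvd_rfl
    have p1 : π u * π P = 1 := by
      have := congrArg π huv
      rwa [map_add, map_mul, map_mul, p0, mul_zero, add_zero, map_one] at this
    have p2 : π u2 * π wb = 1 := by
      have := congrArg π huv2
      rwa [map_add, map_mul, map_mul, p0, mul_zero, add_zero, map_one] at this
    have p3 : π S ^ 2 = π Pb * π P * π (cx h1) := by
      have := (hπ _).2 hS
      rw [map_sub, map_pow, sub_eq_zero, hcxh, map_mul, map_mul] at this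
      exact this
    have p4 : π ρ = π S ^ 7 * π u2 * (π Pb * π u) ^ (M + 1) := by
      have := (hπ _).2 (Her_mod hab g)
      rw [map_sub, sub_eq_zero] at this
      rw [hρ, ← this, hg]
      simp only [map_mul, map_pow]
    have p5 : π (cx K0) = π (cx h1) ^ (M + 1) * (π wb * π ρ * π P ^ (2 * (M + 1))) := by
      have e1 : cx K0 = (cx h1) ^ (M + 1) * (wb * ρ * P ^ (2 * (M + 1)) +
          (wb * ρ * P ^ (2 * (M + 1))).map (starRingEnd ℂ)) := by
        rw [← hr, hK0, cx, Polynomial.map_mul, Polynomial.map_pow]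
      rw [e1, hPconj, map_mul, map_add, map_mul π w, p0, zero_mul, add_zero]
      simp only [map_mul, map_pow]
    rw [← hπ, map_sub, sub_eq_zero, p5, p4, map_pow, hm]
    calc π (cx h1) ^ (M + 1) * (π wb * (π S ^ 7 * π u2 * (π Pb * π u) ^ (M + 1)) *
          π P ^ (2 * (M + 1))) =
          π S ^ 7 * (π u2 * π wb) * (π u * π P) ^ (M + 1) *
            (π Pb * π P * π (cx h1)) ^ (M + 1) := by
          rw [pow_mul]; ring
      _ = π S ^ (2 * (M + 1) + 7) := by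
          rw [p1, p2, ← p3, one_pow, mul_one, mul_one, ← pow_mul]; ring
  have hK0a : ∀ c : ℂ, w.eval c = 0 → aeval c K0 = (S.eval c) ^ m := by
    intro c hc
    obtain ⟨y, hy⟩ := hcong
    have := congrArg (eval c) hy
    rw [eval_sub, eval_pow, eval_mul, hc, zero_mul, sub_eq_zero, cx_eval] at this
    exact this
  -- divisibility
  set c : ℝ[X] := ((X - C a.re) ^ 2 + C (a.im ^ 2)) * ((X - C b.re) ^ 2 + C (b.im ^ 2)) with hc
  have hcc : cx (c ^ 2) = w * wb := by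
    rw [hc, cx, Polynomial.map_pow, Polynomial.map_mul]
    have e1 := quad_cx a
    have e2 := quad_cx b
    rw [cx] at e1 e2
    rw [e1, e2, hw, hwb, wmod, wmod]
    ring
  have hdvd : c ^ 2 ∣ h ^ m - K0 ^ 2 := by
    have e1 : w ∣ cx (h ^ m - K0 ^ 2) := by
      have e2 : cx (h ^ m - K0 ^ 2) = (cx h) ^ m - (cx K0) ^ 2 := by
        simp only [cx, Polynomial.map_sub, Polynomial.map_pow]
      have e3 : w ∣ (S ^ 2) ^ m - (cx h) ^ m := hS.trans (sub_dvd_pow_sub_pow _ _ m)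
      have e4 : w ∣ (cx K0) ^ 2 - (S ^ m) ^ 2 := hcong.trans (sub_dvd_pow_sub_pow _ _ 2)
      have e5 : (cx h) ^ m - (cx K0) ^ 2 =
          -(((S ^ 2) ^ m - (cx h) ^ m) + ((cx K0) ^ 2 - (S ^ m) ^ 2)) := by ring
      rw [e2, e5]
      exact (dvd_add e3 e4).neg_right
    have e2 : wb ∣ cx (h ^ m - K0 ^ 2) := by
      obtain ⟨y, hy⟩ := e1
      have e3 := congrArg (Polynomial.map (starRingEnd ℂ)) hy
      rw [cx_conj, Polynomial.map_mul] at e3
      have e4 : w.map (starRingEnd ℂ) = wb := by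
        rw [hwb, hw, wmod, wmod]
        simp only [Polynomial.map_mul, Polynomial.map_pow, X_sub_conj]
      rw [e4] at e3
      exact ⟨_, e3⟩
    have e3 : cx (c ^ 2) ∣ cx (h ^ m - K0 ^ 2) := by
      rw [hcc]
      have hcw' : IsCoprime wb w := ⟨u2, v2, huv2⟩
      exact hcw'.symm.mul_dvd e1 e2
    exact (Polynomial.map_dvd_map' (algebraMap ℝ ℂ)).1 e3
  obtain ⟨k, hk⟩ := hdvd
  have hcpos : ∀ x, 0 < c.eval x := fun x => by
    rw [hc]
    simp only [eval_mul, eval_add, eval_pow, eval_sub, eval_X, eval_C]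
    positivity
  -- the bound
  have hbound : ∀ x, (K0.eval x) ^ 2 ≤ (h.eval x) ^ m := by
    intro x
    have e1 := eval_re hr x
    have e2 : ‖P.eval (x : ℂ)‖ ^ 2 = n.eval x := by
      have e3 := congrArg (eval (x : ℂ)) hncx
      rw [cx_real, eval_mul] at e3
      have e4 : Pb.eval (x : ℂ) = starRingEnd ℂ (P.eval (x : ℂ)) := by
        rw [hP, hPb]; simp
      rw [e4, mul_comm, Complex.mul_conj, Complex.normSq_eq_norm_sq] at e3
      exact_mod_cast e3.symm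
    have e3 : ‖ρ.eval (x : ℂ)‖ ^ 2 ≤ ch * (siz a b g) ^ 2 * (1 + x ^ 2) ^ 3 := hsmall _ _ _ _ x
    have e4 := hgw x
    have e5 : (r.eval x) ^ 2 ≤ 4 * (‖wb.eval (x : ℂ)‖ ^ 2 * ‖ρ.eval (x : ℂ)‖ ^ 2) *
        (n.eval x) ^ (2 * (M + 1)) := by
      rw [← sq_abs]
      refine (pow_le_pow_left₀ (abs_nonneg _) e1 2).trans (le_of_eq ?_)
      rw [eval_mul, eval_mul, eval_pow, norm_mul, norm_mul, norm_pow, ← e2]
      ring
    have e6 : 4 * (‖wb.eval (x : ℂ)‖ ^ 2 * ‖ρ.eval (x : ℂ)‖ ^ 2) ≤ (h.eval x) ^ 7 := by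
      have f1 : ‖wb.eval (x : ℂ)‖ ^ 2 * ‖ρ.eval (x : ℂ)‖ ^ 2 ≤
          (cw * (1 + x ^ 2) ^ 4) * (ch * (siz a b g) ^ 2 * (1 + x ^ 2) ^ 3) :=
        mul_le_mul e4 e3 (by positivity) (by positivity)
      have f2 : (ε * (1 + x ^ 2)) ^ 7 ≤ (h.eval x) ^ 7 :=
        pow_le_pow_left₀ (by positivity) (hlow x) 7
      have f3 : 4 * (cw * (ch * (siz a b g) ^ 2)) * (1 + x ^ 2) ^ 7 ≤ ε ^ 7 * (1 + x ^ 2) ^ 7 :=
        mul_le_mul_of_nonneg_right hM.le (by positivity)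
      calc _ ≤ 4 * ((cw * (1 + x ^ 2) ^ 4) * (ch * (siz a b g) ^ 2 * (1 + x ^ 2) ^ 3)) :=
            mul_le_mul_of_nonneg_left f1 (by norm_num)
        _ = 4 * (cw * (ch * (siz a b g) ^ 2)) * (1 + x ^ 2) ^ 7 := by ring
        _ ≤ ε ^ 7 * (1 + x ^ 2) ^ 7 := f3
        _ = (ε * (1 + x ^ 2)) ^ 7 := by ring
        _ ≤ _ := f2
    have e7 : h.eval x = n.eval x * h1.eval x := by rw [hh1, eval_mul]
    calc (K0.eval x) ^ 2 = (h1.eval x) ^ (2 * (M + 1)) * (r.eval x) ^ 2 := by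
          rw [hK0, eval_mul, eval_pow, mul_pow, ← pow_mul, mul_comm (M + 1) 2]
      _ ≤ (h1.eval x) ^ (2 * (M + 1)) * ((h.eval x) ^ 7 * (n.eval x) ^ (2 * (M + 1))) :=
          mul_le_mul_of_nonneg_left (e5.trans (mul_le_mul_of_nonneg_right e6
            (pow_nonneg (hnpos x).le _))) (pow_nonneg (h1pos x).le _)
      _ = (h.eval x) ^ 7 * (n.eval x * h1.eval x) ^ (2 * (M + 1)) := by ring
      _ = (h.eval x) ^ m := by rw [← e7, hm]; ring
  have hk0 : ∀ x, 0 ≤ k.eval x := by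
    intro x
    have e1 : (h.eval x) ^ m - (K0.eval x) ^ 2 = (c.eval x) ^ 2 * k.eval x := by
      rw [← eval_pow, ← eval_pow, ← eval_sub, hk, ← eval_pow, ← eval_mul]
    have e2 := hbound x
    have e3 : 0 ≤ (c.eval x) ^ 2 * k.eval x := by linarith
    exact nonneg_of_mul_nonneg_right e3 (pow_pos (hcpos x) 2)
  obtain ⟨k1, k2, hk12⟩ := two_squares _ k le_rfl hk0
  have hca : aeval a c = 0 := by
    rw [← cx_eval, hc, cx, Polynomial.map_mul]
    have e1 := quad_cx a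
    rw [cx] at e1
    rw [e1]
    simp
  have hcb : aeval b c = 0 := by
    rw [← cx_eval, hc, cx, Polynomial.map_mul]
    have e1 := quad_cx b
    rw [cx] at e1
    rw [e1]
    simp
  refine ⟨K0, c * k1, c * k2, ?_, ?_, ?_, ?_, ?_, ?_, ?_⟩
  · have : h ^ m = K0 ^ 2 + c ^ 2 * k := by rw [← hk]; ring
    rw [this, hk12]
    ring
  · rw [hK0a a hwa, hSa]
  · rw [hK0a b hwb', hSb]
  · rw [map_mul, hca, zero_mul]
  · rw [map_mul, hcb, zero_mul]
  · rw [map_mul, hca, zero_mul]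
  · rw [map_mul, hcb, zero_mul]

end Q49.SG
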