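import Mathlib

/-!
# Nonnegative real polynomials in one variable
-/

set_option autoImplicit false

namespace Q49.SG

open Polynomial

theorem dvd_sq_of_root {K : Type} [Field K] {p : K[X]} {r : K} (h0 : p.eval r = 0)
    (h1 : (derivative p).eval r = 0) : (X - C r) ^ 2 ∣ p := by
  obtain ⟨q, rfl⟩ := dvd_iff_isRoot.2 h0
  rw [derivative_mul, eval_add, eval_mul, eval_mul, eval_sub, eval_X, eval_C, sub_self, zero_mul,
    add_zero, derivative_sub, derivative_X, derivative_C, sub_zero, eval_one, one_mul] at h1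
  obtain ⟨s, rfl⟩ := dvd_iff_isRoot.2 h1
  exact ⟨s, by ring⟩

theorem nonneg_of_ne {p : ℝ[X]} (r : ℝ) (h : ∀ x, x ≠ r → 0 ≤ p.eval x) (x : ℝ) :
    0 ≤ p.eval x := by
  have h1 : IsClosed {x : ℝ | 0 ≤ p.eval x} := isClosed_le continuous_const p.continuous
  have h2 : Dense ({r}ᶜ : Set ℝ) := dense_compl_singleton r
  have h3 : closure ({r}ᶜ : Set ℝ) ⊆ {x : ℝ | 0 ≤ p.eval x} :=
    closure_minimal (fun y hy => h y hy) h1
  exact h3 (h2 x)

theorem real_root {p : ℝ[X]} (hp : ∀ x, 0 ≤ p.eval x) {r : ℝ} (hr : p.eval r = 0) :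
    ∃ q : ℝ[X], p = (X - C r) ^ 2 * q ∧ ∀ x, 0 ≤ q.eval x := by
  have hmin : IsLocalMin (fun x => p.eval x) r := by
    refine Filter.Eventually.of_forall fun x => ?_
    dsimp only
    rw [hr]
    exact hp x
  have hder : (derivative p).eval r = 0 := by
    have := hmin.deriv_eq_zero
    rwa [Polynomial.deriv] at this
  obtain ⟨q, hq⟩ := dvd_sq_of_root hr hder
  refine ⟨q, hq, nonneg_of_ne r fun x hx => ?_⟩
  have h1 := hp x
  rw [hq, eval_mul, eval_pow, eval_sub, eval_X, eval_C] at h1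
  exact nonneg_of_mul_nonneg_right h1 (by have := sub_ne_zero.2 hx; positivity)

theorem sq_dvd_aux {p : ℝ[X]} {z : ℂ} (h0 : aeval z p = 0) (hz : z.im ≠ 0) :
    ∃ q : ℝ[X], p = ((X - C z.re) ^ 2 + C (z.im ^ 2)) * q := by
  obtain ⟨q, hq⟩ := Polynomial.quadratic_dvd_of_aeval_eq_zero_im_ne_zero p h0 hz
  refine ⟨q, ?_⟩
  rw [hq]
  congr 1
  have h1 : ‖z‖ ^ 2 = z.re ^ 2 + z.im ^ 2 := by
    rw [← Complex.normSq_eq_norm_sq, Complex.normSq_apply]; ring
  rw [h1, map_add, map_mul, map_pow]
  have h2 : (C (2 : ℝ) : ℝ[X]) = 2 := map_ofNat C 2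
  rw [h2]
  ring

theorem exists_complex_root {p : ℝ[X]} (hp : 0 < p.natDegree) : ∃ z : ℂ, aeval z p = 0 := by
  have h1 : 0 < (p.map (algebraMap ℝ ℂ)).degree := by
    rw [degree_map]
    exact natDegree_pos_iff_degree_pos.1 hp
  obtain ⟨z, hz⟩ := Complex.exists_root h1
  refine ⟨z, ?_⟩
  rw [aeval_def, ← eval_map]
  exact hz

/-- The square factors `2 * natDegree` -/
theorem natDegree_quad (α β : ℝ) (q : ℝ[X]) (hq : q ≠ 0) :
    (((X - C α) ^ 2 + C β) * q).natDegree = 2 + q.natDegree := by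
  have h1 : ((X - C α) ^ 2 + C β : ℝ[X]).Monic := by monicity!
  have h2 : ((X - C α) ^ 2 + C β : ℝ[X]).natDegree = 2 := by compute_degree!
  rw [h1.natDegree_mul' hq, h2]

/-- A nonnegative real polynomial is a sum of two squares. -/
theorem two_squares : ∀ (N : ℕ) (p : ℝ[X]), p.natDegree ≤ N → (∀ x, 0 ≤ p.eval x) →
    ∃ q r : ℝ[X], p = q ^ 2 + r ^ 2 := by
  intro N
  induction N using Nat.strong_induction_on with
  | _ N ih =>
    intro p hN hp
    rcases Nat.eq_zero_or_pos p.natDegree with h0 | h0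
    · obtain ⟨c, rfl⟩ : ∃ c, p = C c := ⟨_, eq_C_of_natDegree_eq_zero h0⟩
      have hc : 0 ≤ c := by have := hp 0; rwa [eval_C] at this
      refine ⟨C (Real.sqrt c), 0, ?_⟩
      rw [← map_pow, Real.sq_sqrt hc, zero_pow two_ne_zero, add_zero]
    · obtain ⟨z, hz⟩ := exists_complex_root h0
      by_cases him : z.im = 0
      · have hr : p.eval z.re = 0 := by
          have h1 : z = ((z.re : ℝ) : ℂ) := Complex.ext rfl (by rw [him]; simp)
          have h2 : aeval ((z.re : ℝ) : ℂ) p = ((p.eval z.re : ℝ) : ℂ) :=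
            aeval_algebraMap_apply_eq_algebraMap_eval z.re p
          rw [h1, h2] at hz
          exact_mod_cast hz
        obtain ⟨q, hq, hq0⟩ := real_root hp hr
        have hne : q ≠ 0 := by
          rintro rfl
          rw [mul_zero] at hq
          rw [hq] at h0
          simp at h0
        have h2 := natDegree_quad z.re 0 q hne
        rw [C_0, add_zero, ← hq] at h2
        obtain ⟨u, v, huv⟩ := ih q.natDegree (by omega) q le_rfl hq0
        exact ⟨(X - C z.re) * u, (X - C z.re) * v, by rw [hq, huv]; ring⟩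
      · obtain ⟨q, hq⟩ := sq_dvd_aux hz him
        have hne : q ≠ 0 := by
          rintro rfl
          rw [mul_zero] at hq
          rw [hq] at h0
          simp at h0
        have h2 := natDegree_quad z.re (z.im ^ 2) q hne
        rw [← hq] at h2
        have hq0 : ∀ x, 0 ≤ q.eval x := by
          intro x
          have h1 := hp x
          rw [hq, eval_mul, eval_add, eval_pow, eval_sub, eval_X, eval_C, eval_C] at h1
          exact nonneg_of_mul_nonneg_right h1 (by positivity)
        obtain ⟨u, v, huv⟩ := ih q.natDegree (by omega) q le_rfl hq0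
        refine ⟨(X - C z.re) * u - C z.im * v, (X - C z.re) * v + C z.im * u, ?_⟩
        rw [hq, huv, map_pow]
        ring

/-- Real roots of a nonnegative polynomial can be split off. -/
theorem split_roots : ∀ (N : ℕ) (p : ℝ[X]), p.natDegree ≤ N → p ≠ 0 → (∀ x, 0 ≤ p.eval x) →
    ∃ (s : Multiset ℝ) (h : ℝ[X]), p = (s.map fun r => X - C r).prod ^ 2 * h ∧
      (∀ x, 0 < h.eval x) ∧ 2 * Multiset.card s + h.natDegree = p.natDegree := by
  intro N
  induction N using Nat.strong_induction_on with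
  | _ N ih =>
    intro p hN hp0 hp
    by_cases hroot : ∃ r, p.eval r = 0
    · obtain ⟨r, hr⟩ := hroot
      obtain ⟨q, hq, hq0⟩ := real_root hp hr
      have hne : q ≠ 0 := by
        rintro rfl
        rw [mul_zero] at hq
        exact hp0 hq
      have h2 := natDegree_quad r 0 q hne
      rw [C_0, add_zero, ← hq] at h2
      obtain ⟨s, h, h3, h4, h5⟩ := ih q.natDegree (by omega) q le_rfl hne hq0
      refine ⟨r ::ₘ s, h, ?_, h4, ?_⟩
      · rw [Multiset.map_cons, Multiset.prod_cons, hq, h3]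
        ring
      · rw [Multiset.card_cons]
        omega
    · push Not at hroot
      exact ⟨0, p, by simp, fun x => lt_of_le_of_ne (hp x) (hroot x).symm, by simp⟩

/-- A positive polynomial is bounded below by a positive constant. -/
theorem pos_lower {p : ℝ[X]} (hp : ∀ x, 0 < p.eval x) : ∃ ε > (0 : ℝ), ∀ x, ε ≤ p.eval x := by
  obtain ⟨x, hx⟩ := p.exists_forall_norm_le
  refine ⟨p.eval x, hp x, fun y => ?_⟩
  have := hx y
  rwa [Real.norm_of_nonneg (hp x).le, Real.norm_of_nonneg (hp y).le] at this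

/-- degrees of the summands in a sum of squares -/
theorem natDegree_le_of_sum_sq {ι : Type} [Fintype ι] (q : ι → ℝ[X]) (D : ℕ)
    (h : (∑ i, q i ^ 2).natDegree ≤ 2 * D) (i : ι) : (q i).natDegree ≤ D := by
  classical
  by_contra hcon
  rw [not_le] at hcon
  obtain ⟨j, -, hj⟩ := Finset.exists_max_image Finset.univ (fun i => (q i).natDegree)
    ⟨i, Finset.mem_univ i⟩
  set M := (q j).natDegree with hM
  have hMD : D < M := lt_of_lt_of_le hcon (hj i (Finset.mem_univ i))
  have h1 : (∑ i, q i ^ 2).coeff (2 * M) = ∑ i, (q i).coeff M ^ 2 := by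
    rw [finsetSum_coeff]
    exact Finset.sum_congr rfl fun k _ => coeff_pow_of_natDegree_le (hj k (Finset.mem_univ k))
  have h2 : (∑ i, q i ^ 2).coeff (2 * M) = 0 :=
    coeff_eq_zero_of_natDegree_lt (by omega)
  rw [h1, Finset.sum_eq_zero_iff_of_nonneg fun k _ => sq_nonneg _] at h2
  have h3 := pow_eq_zero_iff two_ne_zero |>.1 (h2 j (Finset.mem_univ j))
  have h4 : q j ≠ 0 := by
    rintro h0
    rw [h0, natDegree_zero] at hM
    omega
  exact h4 (leadingCoeff_eq_zero.1 h3)

end Q49.SG
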